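import Pool.Agent.H437.MK.NoSq
import Pool.Graph.R_seed8.H341R2.WeilSharp

set_option autoImplicit false

namespace Pool.Agent.H437.MK

open Polynomial

section

variable {K : Type*} [Field K]

/-- `T ↦ x (u + T w)` as a polynomial. -/
noncomputable def Pq (x u w : Fin 3 → K) : K[X] :=
  C (qf x w) * X ^ 2 + C (2 * bf x u w) * X + C (qf x u)

/-- `T ↦ f (u + T w)` as a polynomial. -/
noncomputable def Gp (u w : Fin 3 → K) : K[X] :=
  C (-3) * (Pq x1 u w * Pq x2 u w * Pq x3 u w)

theorem Pq_eval (x u w : Fin 3 → K) (T : K) : (Pq x u w).eval T = qf x (u + T • w) := by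
  have := qf_add x u w 1 T
  rw [one_smul] at this
  rw [this, Pq]
  simp only [eval_add, eval_mul, eval_C, eval_pow, eval_X]
  ring

theorem Gp_eval (u w : Fin 3 → K) (T : K) : (Gp u w).eval T = f (u + T • w) := by
  rw [f_eq, ← Pq_eval, ← Pq_eval, ← Pq_eval, Gp]
  simp only [eval_mul, eval_C]

theorem x_map {L : Type*} [Field L] (φ : K →+* L) :
    (fun i => φ (x1 i)) = (x1 : Fin 3 → L) ∧ (fun i => φ (x2 i)) = (x2 : Fin 3 → L) ∧
    (fun i => φ (x3 i)) = (x3 : Fin 3 → L) := by
  refine ⟨?_, ?_, ?_⟩ <;> funext i <;> fin_cases i <;>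
    first
    | exact map_one φ
    | exact map_ofNat φ _

theorem Pq_map {L : Type*} [Field L] (φ : K →+* L) (x u w : Fin 3 → K) :
    (Pq x u w).map φ = Pq (fun i => φ (x i)) (fun i => φ (u i)) (fun i => φ (w i)) := by
  simp only [Pq, Polynomial.map_add, Polynomial.map_mul, Polynomial.map_C, Polynomial.map_pow,
    Polynomial.map_X, qf, bf, map_add, map_mul, map_pow, map_ofNat, Polynomial.map_ofNat]

theorem Gp_map {L : Type*} [Field L] (φ : K →+* L) (u w : Fin 3 → K) :
    (Gp u w).map φ = Gp (fun i => φ (u i)) (fun i => φ (w i)) := by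
  simp only [Gp, Polynomial.map_mul, Pq_map, (x_map φ).1, (x_map φ).2.1,
    (x_map φ).2.2, map_neg, map_ofNat, Polynomial.map_neg, Polynomial.map_ofNat]

theorem Pq_degree {x u w : Fin 3 → K} (h : qf x w ≠ 0) : (Pq x u w).natDegree = 2 := by
  rw [Pq]; exact natDegree_quadratic h

theorem Pq_degree_le (x u w : Fin 3 → K) : (Pq x u w).natDegree ≤ 2 := by
  rw [Pq]; exact natDegree_quadratic_le

theorem Gp_degree (hK : Good K) {u w : Fin 3 → K} (h : f w ≠ 0) : (Gp u w).natDegree = 6 := by
  rw [f_eq] at h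
  have h1 : qf x1 w ≠ 0 := by rintro h'; apply h; rw [h']; ring
  have h2 : qf x2 w ≠ 0 := by rintro h'; apply h; rw [h']; ring
  have h3 : qf x3 w ≠ 0 := by rintro h'; apply h; rw [h']; ring
  have e : ∀ {x : Fin 3 → K}, qf x w ≠ 0 → Pq x u w ≠ 0 := by
    intro x hx h0
    have := Pq_degree (u := u) hx
    rw [h0] at this
    simp at this
  rw [Gp, natDegree_C_mul (neg_ne_zero.2 hK.h3),
    natDegree_mul (mul_ne_zero (e h1) (e h2)) (e h3), natDegree_mul (e h1) (e h2),
    Pq_degree h1, Pq_degree h2, Pq_degree h3]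

theorem Gp_degree_le (u w : Fin 3 → K) : (Gp u w).natDegree ≤ 6 := by
  rw [Gp]
  refine (natDegree_C_mul_le _ _).trans (natDegree_mul_le.trans ?_)
  have h1 := Pq_degree_le x1 u w
  have h2 := Pq_degree_le x2 u w
  have h3 := Pq_degree_le x3 u w
  have h4 := natDegree_mul_le (p := Pq x1 u w) (q := Pq x2 u w)
  omega

/-- a form which vanishes on a plane. -/
theorem not_vanish (h2 : (2 : K) ≠ 0) {x u w : Fin 3 → K} (hn : cr u w ≠ 0) (hx0 : x 0 ≠ 0)
    (hx1 : x 1 ≠ 0) (hx2 : x 2 ≠ 0) : Pq x u w ≠ 0 := by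
  intro h
  have c0 := congrArg (fun P => P.coeff 0) h
  have c1 := congrArg (fun P => P.coeff 1) h
  have c2 := congrArg (fun P => P.coeff 2) h
  simp [Pq, coeff_X, coeff_C, coeff_X_pow] at c0 c1 c2
  have c1' : bf x u w = 0 := c1.resolve_left h2
  obtain ⟨r01, r02, r12⟩ := vanish_rel x u w c0 c1' c2
  have := caseB1 h2 r01 r02 r12 hx0 hx1 hx2
  apply hn
  funext i
  fin_cases i
  · simpa [sqv] using this.1
  · simpa [sqv] using this.2.1
  · simpa [sqv] using this.2.2

theorem Gp_ne (hK : Good K) {u w : Fin 3 → K} (hn : cr u w ≠ 0) : Gp u w ≠ 0 := by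
  have h2 := hK.h2
  have h4 : (4 : K) ≠ 0 := by rw [show (4 : K) = 2 * 2 by norm_num]; exact mul_ne_zero h2 h2
  rw [Gp]
  refine mul_ne_zero (C_ne_zero.2 (neg_ne_zero.2 hK.h3)) (mul_ne_zero (mul_ne_zero
    (not_vanish h2 hn ?_ ?_ ?_) (not_vanish h2 hn ?_ ?_ ?_)) (not_vanish h2 hn ?_ ?_ ?_))
  · simp [x1]
  · simp [x1]
  · simp [x1, hK.h3]
  · simp [x2]
  · simp only [x2, Matrix.cons_val_one, Matrix.cons_val_zero]
    rw [show (8 : K) = 2 * 4 by norm_num]; exact mul_ne_zero h2 h4
  · simp only [x2, Matrix.cons_val_two, Matrix.head_cons, Matrix.tail_cons]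
    rw [show (14 : K) = 2 * 7 by norm_num]; exact mul_ne_zero h2 hK.h7
  · simp [x3]
  · simp only [x3, Matrix.cons_val_one, Matrix.cons_val_zero]
    exact h4
  · simp only [x3, Matrix.cons_val_two, Matrix.head_cons, Matrix.tail_cons]
    rw [show (10 : K) = 2 * 5 by norm_num]; exact mul_ne_zero h2 hK.h5

/-- on every line there is a point with `f ≠ 0` (if the field has more than six elements). -/
theorem exists_ne (hK : Good K) (hcard : Infinite K ∨ ∃ _ : Fintype K, 6 < Fintype.card K)
    {u w : Fin 3 → K} (hn : cr u w ≠ 0) :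
    ∃ u' w' : Fin 3 → K, cr u' w' ≠ 0 ∧ f w' ≠ 0 ∧ (∃ s t : K, u' = s • u + t • w) ∧
      (∃ s t : K, w' = s • u + t • w) := by
  by_cases hw : f w = 0
  · have : ∃ T : K, f (u + T • w) ≠ 0 := by
      by_contra hcon
      push Not at hcon
      apply Gp_ne hK hn
      rcases hcard with h | ⟨_, h⟩
      · apply Polynomial.funext
        intro T
        rw [Gp_eval, hcon, eval_zero]
      · apply Polynomial.eq_zero_of_natDegree_lt_card_of_eval_eq_zero' _ Finset.univ
        · intro T _
          rw [Gp_eval, hcon]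
        · rw [Finset.card_univ]
          exact lt_of_le_of_lt (Gp_degree_le u w) h
    obtain ⟨T, hT⟩ := this
    refine ⟨w, u + T • w, ?_, hT, ⟨0, 1, by simp⟩, ⟨1, T, by simp⟩⟩
    intro h
    apply hn
    funext i
    have h0 := congrFun h 0
    have h1 := congrFun h 1
    have h2 := congrFun h 2
    simp [cr] at h0 h1 h2
    fin_cases i
    · simp [cr]; linear_combination -h0
    · simp [cr]; linear_combination -h1
    · simp [cr]; linear_combination -h2
  · exact ⟨u, w, hn, hw, ⟨1, 0, by simp⟩, ⟨0, 1, by simp⟩⟩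

theorem Good.map {L : Type*} [Field L] (hK : Good K) (φ : K →+* L) : Good L := by
  have e : ∀ n : ℕ, ((n : ℕ) : K) ≠ 0 → ((n : ℕ) : L) ≠ 0 := by
    intro n hn h
    apply hn
    apply φ.injective
    rw [map_natCast, h, map_zero]
  exact ⟨e 2 hK.h2, e 3 hK.h3, e 5 hK.h5, e 7 hK.h7, e 11 hK.h11, e 13 hK.h13, e 29 hK.h29,
    e 41 hK.h41⟩

/-- the restriction of the sextic to a line is not a constant multiple of a square. -/
theorem Gp_not_sq (hK : Good K) {u w : Fin 3 → K} (hn : cr u w ≠ 0) (hw : f w ≠ 0) (c : K)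
    (h : K[X]) : Gp u w ≠ C c * h ^ 2 := by
  intro heq
  let φ := algebraMap K (AlgebraicClosure K)
  obtain ⟨c1, hc1⟩ := IsAlgClosed.exists_pow_nat_eq (φ c) (n := 2) (by norm_num)
  refine nosq (K := AlgebraicClosure K) (hK.map φ) (u := fun i => φ (u i))
    (w := fun i => φ (w i)) ?_ ?_ (C c1 * h.map φ) ?_
  · intro h0
    apply hn
    funext i
    have h1 := congrFun h0 i
    apply φ.injective
    rw [Pi.zero_apply, map_zero]
    rw [Pi.zero_apply] at h1
    rw [← h1]
    fin_cases i <;> simp [cr]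
  · have : f (fun i => φ (w i)) = φ (f w) := by
      simp only [f, map_mul, map_add, map_pow, map_neg, map_ofNat]
    rw [this]
    intro h0
    apply hw
    apply φ.injective
    rw [h0, map_zero]
  · intro T
    rw [← Gp_eval, ← Gp_map, heq]
    simp only [Polynomial.map_mul, Polynomial.map_pow, map_C, eval_mul, eval_pow, eval_C]
    rw [← hc1]; ring

end

/-- on every line over a prime field of at least 37 elements in which the eight primes are
invertible there is a point at which the sextic is a nonzero square. -/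
theorem weil_pt {p : ℕ} [Fact p.Prime] (hp : 37 ≤ p) (hK : Good (ZMod p))
    {u w : Fin 3 → ZMod p} (hn : cr u w ≠ 0) :
    ∃ v : Fin 3 → ZMod p, (∃ s t : ZMod p, v = s • u + t • w) ∧ ∃ c, c ≠ 0 ∧ f v = c ^ 2 := by
  classical
  obtain ⟨u', w', hn', hw', ⟨s, t, hu'⟩, ⟨s', t', hw''⟩⟩ := exists_ne hK
    (Or.inr ⟨inferInstance, by rw [ZMod.card]; omega⟩) hn
  have hchar : ringChar (ZMod p) ≠ 2 := by
    rw [ZMod.ringChar_zmod_n]; omega
  have hdeg := Gp_degree hK (u := u') hw'
  have hW := Pool.Agent.H341R2.Sharp.weil_sharp hchar (Gp u' w') (by omega)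
    (Gp_not_sq hK hn' hw')
  rw [hdeg, ZMod.card] at hW
  by_contra hcon
  push Not at hcon
  have hval : ∀ T : ZMod p, (Gp u' w').eval T ≠ 0 →
      quadraticChar (ZMod p) ((Gp u' w').eval T) = -1 := by
    intro T hT
    rcases quadraticChar_dichotomy hT with h | h
    · exfalso
      rw [quadraticChar_one_iff_isSquare hT] at h
      obtain ⟨c, hc⟩ := h
      refine hcon (u' + T • w') ⟨s + T * s', t + T * t', ?_⟩ c ?_ ?_
      · rw [hu', hw'']
        funext i
        simp only [Pi.add_apply, Pi.smul_apply, smul_eq_mul]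
        ring
      · rintro rfl
        apply hT
        rw [hc]; ring
      · rw [← Gp_eval, hc]; ring
    · exact h
  have hG0 : Gp u' w' ≠ 0 := Gp_ne hK hn'
  have hcount : ∑ T : ZMod p, (quadraticChar (ZMod p) ((Gp u' w').eval T) : ℝ) ≤
      -((p : ℝ) - 6) := by
    have h1 : ∀ T : ZMod p, (quadraticChar (ZMod p) ((Gp u' w').eval T) : ℝ) =
        -1 + (if (Gp u' w').eval T = 0 then 1 else 0) := by
      intro T
      split_ifs with h
      · rw [h]; simp
      · rw [hval T h]; simp
    rw [Finset.sum_congr rfl (fun T _ => h1 T), Finset.sum_add_distrib, Finset.sum_const,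
      Finset.card_univ, ZMod.card, Finset.sum_ite, Finset.sum_const_zero, add_zero,
      Finset.sum_const]
    have h2 : (Finset.univ.filter (fun T : ZMod p => (Gp u' w').eval T = 0)).card ≤ 6 := by
      have h3 : (Finset.univ.filter (fun T : ZMod p => (Gp u' w').eval T = 0)) ⊆
          (Gp u' w').roots.toFinset := by
        intro T hT
        rw [Finset.mem_filter] at hT
        rw [Multiset.mem_toFinset, mem_roots hG0]
        exact hT.2
      refine (Finset.card_le_card h3).trans ((Multiset.toFinset_card_le _).trans ?_)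
      exact (card_roots' _).trans hdeg.le
    have h3 : ((Finset.univ.filter (fun T : ZMod p => (Gp u' w').eval T = 0)).card : ℝ) ≤ 6 := by
      exact_mod_cast h2
    simp only [nsmul_eq_mul, mul_one, mul_neg]
    linarith
  have hp' : (37 : ℝ) ≤ p := by exact_mod_cast hp
  have hsq := Real.sq_sqrt (show (0 : ℝ) ≤ p by positivity)
  have hs0 := Real.sqrt_nonneg (p : ℝ)
  have habs := neg_le_of_abs_le hW
  have h61 : ((6 : ℕ) : ℝ) - 1 = 5 := by norm_num
  rw [h61] at habs
  have h5 : (p : ℝ) - 6 ≤ 5 * Real.sqrt p := by linarith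
  nlinarith [mul_self_nonneg (Real.sqrt p), sq_nonneg ((p : ℝ) - 6)]

end Pool.Agent.H437.MK
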