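import Pool.Agent.H437.MK.Small
import Pool.Agent.H437.MK.Weil

/-!
# Every line over `ℚ_[p]` has a point at which the sextic is a nonzero square
-/

set_option autoImplicit false

namespace Pool.Agent.H437.MK

section

variable {p : ℕ} [hp : Fact p.Prime]

theorem sq_of_residue (h2 : p ≠ 2) (V : ℤ_[p]) (c : ZMod p) (hc0 : c ≠ 0)
    (h : PadicInt.toZMod V = c ^ 2) : ∃ d : ℤ_[p], d ≠ 0 ∧ V = d ^ 2 := by
  have hcu : PadicInt.toZMod ((c.val : ℕ) : ℤ_[p]) = c := by
    rw [map_natCast, ZMod.natCast_zmod_val]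
  have hnc : ‖((c.val : ℕ) : ℤ_[p])‖ = 1 := by
    by_contra hne
    have hlt : ‖((c.val : ℕ) : ℤ_[p])‖ < 1 := lt_of_le_of_ne (PadicInt.norm_le_one _) hne
    have : PadicInt.toZMod ((c.val : ℕ) : ℤ_[p]) = 0 := by
      rw [← RingHom.mem_ker, PadicInt.ker_toZMod, IsLocalRing.mem_maximalIdeal,
        PadicInt.mem_nonunits]
      exact hlt
    rw [hcu] at this
    exact hc0 this
  have hs : IsSquare V := by
    refine DP.isSquare_of_close (a := ((c.val : ℕ) : ℤ_[p])) ?_
    rw [norm_mul, DP.norm_two_odd h2, hnc, mul_one, one_pow]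
    have : PadicInt.toZMod ((((c.val : ℕ) : ℤ_[p])) ^ 2 - V) = 0 := by
      rw [map_sub, map_pow, hcu, h]; ring
    rw [← RingHom.mem_ker, PadicInt.ker_toZMod, IsLocalRing.mem_maximalIdeal,
        PadicInt.mem_nonunits] at this
    exact this
  obtain ⟨d, hd⟩ := hs
  refine ⟨d, ?_, by rw [hd]; ring⟩
  rintro rfl
  rw [mul_zero] at hd
  rw [hd, map_zero] at h
  exact pow_ne_zero 2 hc0 h.symm

theorem f_map {R S : Type*} [CommRing R] [CommRing S] (φ : R →+* S) (v : Fin 3 → R) :
    φ (f v) = f (fun i => φ (v i)) := by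
  simp only [f, map_mul, map_add, map_pow, map_neg, map_ofNat]

theorem chart_map {R S : Type*} [CommRing R] [CommRing S] (φ : R →+* S) (ch : ℕ) (a b x y : R) :
    (fun i => φ (chart ch a b x y i)) = chart ch (φ a) (φ b) (φ x) (φ y) := by
  match ch with
  | 0 => funext i; fin_cases i <;> simp [chart]
  | 1 => funext i; fin_cases i <;> simp [chart]
  | (n + 2) => funext i; fin_cases i <;> simp [chart]

theorem chart_lin {R : Type*} [CommRing R] (ch : ℕ) (a b s t : R) :
    s • chart ch a b 1 0 + t • chart ch a b 0 1 = chart ch a b s t := by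
  match ch with
  | 0 => funext i; fin_cases i <;> simp [chart, mul_comm]
  | 1 => funext i; fin_cases i <;> simp [chart, mul_comm]
  | (n + 2) => funext i; fin_cases i <;> simp [chart, mul_comm]

theorem chart_cr {R : Type*} [CommRing R] [Nontrivial R] (ch : ℕ) (a b : R) :
    cr (chart ch a b 1 0) (chart ch a b 0 1) ≠ 0 := by
  intro h
  match ch with
  | 0 => have := congrFun h 0; simp [chart, cr] at this
  | 1 => have := congrFun h 1; simp [chart, cr] at this
  | (n + 2) => have := congrFun h 2; simp [chart, cr] at this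

theorem good_zmod (h37 : 37 ≤ p) (h41 : p ≠ 41) : Good (ZMod p) := by
  have e : ∀ n : ℕ, 0 < n → n < p → ((n : ℕ) : ZMod p) ≠ 0 := by
    intro n h0 hn h
    rw [ZMod.natCast_eq_zero_iff] at h
    exact absurd (Nat.le_of_dvd h0 h) (by omega)
  refine ⟨e 2 (by norm_num) (by omega), e 3 (by norm_num) (by omega), e 5 (by norm_num) (by omega),
    e 7 (by norm_num) (by omega), e 11 (by norm_num) (by omega), e 13 (by norm_num) (by omega),
    e 29 (by norm_num) (by omega), ?_⟩
  intro h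
  have h' : ((41 : ℕ) : ZMod p) = 0 := h
  rw [ZMod.natCast_eq_zero_iff] at h'
  exact h41 ((Nat.prime_dvd_prime_iff_eq hp.out (by norm_num)).1 h')

theorem hasPt_large (h37 : 37 ≤ p) (h41 : p ≠ 41) (ch : ℕ) (A B : ℤ_[p]) : HasPt p ch A B := by
  obtain ⟨v, ⟨s, t, rfl⟩, c, hc0, hc⟩ := weil_pt h37 (good_zmod h37 h41)
    (chart_cr ch (PadicInt.toZMod A) (PadicInt.toZMod B))
  rw [chart_lin] at hc
  have e : ∀ r : ZMod p, PadicInt.toZMod ((r.val : ℕ) : ℤ_[p]) = r := by
    intro r; rw [map_natCast, ZMod.natCast_zmod_val]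
  obtain ⟨d, hd0, hd⟩ := sq_of_residue (by omega)
    (f (chart ch A B ((s.val : ℕ) : ℤ_[p]) ((t.val : ℕ) : ℤ_[p]))) c hc0
    (by rw [f_map, chart_map, e, e, hc])
  exact ⟨_, _, d, hd0, hd⟩

theorem hasPt_of_trees {k : ℕ} (h : (tree p 0 k 0 0 0 && tree p 1 k 0 0 0 && tree p 2 k 0 0 0) = true)
    (ch : ℕ) (hch : ch < 3) (A B : ℤ_[p]) : HasPt p ch A B := by
  simp only [Bool.and_eq_true] at h
  interval_cases ch
  · exact hasPt_of_tree h.1.1 A B
  · exact hasPt_of_tree h.1.2 A B
  · exact hasPt_of_tree h.2 A B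

omit hp in
theorem small_primes (p : ℕ) (hpp : p.Prime) (hlt : p < 37) :
    p = 2 ∨ p = 3 ∨ p = 5 ∨ p = 7 ∨ p = 11 ∨ p = 13 ∨ p = 17 ∨ p = 19 ∨ p = 23 ∨
        p = 29 ∨ p = 31 := by
  interval_cases p <;> first | (simp; done) | (exfalso; revert hpp; norm_num; done)

theorem hasPt_all (ch : ℕ) (hch : ch < 3) (A B : ℤ_[p]) : HasPt p ch A B := by
  by_cases h37 : 37 ≤ p
  · by_cases h41 : p = 41
    · subst h41; exact hasPt_of_trees t41 ch hch A B
    · exact hasPt_large h37 h41 ch A B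
  · have hlt : p < 37 := by omega
    have hcases := small_primes p hp.out hlt
    rcases hcases with h | h | h | h | h | h | h | h | h | h | h <;> subst h
    · exact hasPt_of_trees t2 ch hch A B
    · exact hasPt_of_trees t3 ch hch A B
    · exact hasPt_of_trees t5 ch hch A B
    · exact hasPt_of_trees t7 ch hch A B
    · exact hasPt_of_trees t11 ch hch A B
    · exact hasPt_of_trees t13 ch hch A B
    · exact hasPt_of_trees t17 ch hch A B
    · exact hasPt_of_trees t19 ch hch A B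
    · exact hasPt_of_trees t23 ch hch A B
    · exact hasPt_of_trees t29 ch hch A B
    · exact hasPt_of_trees t31 ch hch A B

theorem comb_of {K : Type*} [Field K] {u w v : Fin 3 → K} {a b d : K} (hd : d ≠ 0)
    (h : ∀ i, d * v i = a * u i + b * w i) : ∃ s t : K, v = s • u + t • w := by
  refine ⟨a / d, b / d, ?_⟩
  funext i
  simp only [Pi.add_apply, Pi.smul_apply, smul_eq_mul]
  apply mul_left_cancel₀ hd
  rw [h i, mul_add, ← mul_assoc, ← mul_assoc, mul_div_cancel₀ _ hd, mul_div_cancel₀ _ hd]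

/-- a vector orthogonal to the cross product is a combination. -/
theorem mem_span_of_perp {K : Type*} [Field K] {u w v : Fin 3 → K} (hn : cr u w ≠ 0)
    (h : cr u w 0 * v 0 + cr u w 1 * v 1 + cr u w 2 * v 2 = 0) :
    ∃ s t : K, v = s • u + t • w := by
  have hcase : cr u w 0 ≠ 0 ∨ cr u w 1 ≠ 0 ∨ cr u w 2 ≠ 0 := by
    by_contra hcon
    push Not at hcon
    apply hn
    funext i
    fin_cases i
    · exact hcon.1
    · exact hcon.2.1
    · exact hcon.2.2
  simp only [cr, Matrix.cons_val_zero, Matrix.cons_val_one, Matrix.cons_val_two,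
    Matrix.head_cons, Matrix.tail_cons] at h hcase
  rcases hcase with h0 | h0 | h0
  · refine comb_of (a := v 1 * w 2 - v 2 * w 1) (b := u 1 * v 2 - u 2 * v 1) h0 ?_
    intro i
    fin_cases i
    · simp only [Fin.zero_eta]; linear_combination h
    · simp only [Fin.mk_one]; ring
    · simp only [Fin.reduceFinMk]; ring
  · refine comb_of (a := v 2 * w 0 - v 0 * w 2) (b := u 2 * v 0 - u 0 * v 2) h0 ?_
    intro i
    fin_cases i
    · simp only [Fin.zero_eta]; ring
    · simp only [Fin.mk_one]; linear_combination h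
    · simp only [Fin.reduceFinMk]; ring
  · refine comb_of (a := v 0 * w 1 - v 1 * w 0) (b := u 0 * v 1 - u 1 * v 0) h0 ?_
    intro i
    fin_cases i
    · simp only [Fin.zero_eta]; ring
    · simp only [Fin.mk_one]; ring
    · simp only [Fin.reduceFinMk]; linear_combination h

/-- from a chart to a line over `ℚ_[p]`. -/
theorem of_chart {n : Fin 3 → ℚ_[p]} (ch : ℕ) (hch : ch < 3) (A B : ℤ_[p]) (hn : ∀ x y : ℚ_[p],
    n 0 * chart ch (A : ℚ_[p]) B x y 0 + n 1 * chart ch (A : ℚ_[p]) B x y 1 +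
      n 2 * chart ch (A : ℚ_[p]) B x y 2 = 0) :
    ∃ v : Fin 3 → ℚ_[p], n 0 * v 0 + n 1 * v 1 + n 2 * v 2 = 0 ∧ ∃ c, c ≠ 0 ∧ f v = c ^ 2 := by
  obtain ⟨x, y, c, hc0, hc⟩ := hasPt_all (p := p) ch hch A B
  refine ⟨chart ch (A : ℚ_[p]) B x y, hn x y, (c : ℚ_[p]), ?_, ?_⟩
  · intro h
    apply hc0
    have h' : ((c : ℤ_[p]) : ℚ_[p]) = ((0 : ℤ_[p]) : ℚ_[p]) := by rw [h]; simp
    exact PadicInt.ext h'
  · have h1 := congrArg (PadicInt.Coe.ringHom (p := p)) hc
    rw [f_map, chart_map, map_pow] at h1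
    exact h1

/-- **Every line over `ℚ_[p]` has a point at which the sextic is a nonzero square.** -/
theorem line_pt {u w : Fin 3 → ℚ_[p]} (hn : cr u w ≠ 0) :
    ∃ s t c : ℚ_[p], c ≠ 0 ∧ f (s • u + t • w) = c ^ 2 := by
  have main : ∃ v : Fin 3 → ℚ_[p], cr u w 0 * v 0 + cr u w 1 * v 1 + cr u w 2 * v 2 = 0 ∧
      ∃ c, c ≠ 0 ∧ f v = c ^ 2 := by
    generalize hnn : cr u w = n at *
    obtain ⟨i, -, hi⟩ := Finset.exists_max_image (Finset.univ : Finset (Fin 3)) (fun i => ‖n i‖)
      ⟨0, Finset.mem_univ 0⟩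
    have hi' : ∀ j, ‖n j‖ ≤ ‖n i‖ := fun j => hi j (Finset.mem_univ j)
    have hni : n i ≠ 0 := by
      intro h
      apply hn
      funext j
      have := hi' j
      rw [h, norm_zero] at this
      exact norm_eq_zero.1 (le_antisymm this (norm_nonneg _))
    have hz : ∀ j, ∃ z : ℤ_[p], (z : ℚ_[p]) = -(n j / n i) := by
      intro j
      refine ⟨⟨-(n j / n i), ?_⟩, rfl⟩
      rw [norm_neg, norm_div]
      exact div_le_one_of_le₀ (hi' j) (norm_nonneg _)
    obtain ⟨z0, h0⟩ := hz 0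
    obtain ⟨z1, h1⟩ := hz 1
    obtain ⟨z2, h2⟩ := hz 2
    fin_cases i
    · refine of_chart 0 (by norm_num) z1 z2 ?_
      intro x y
      simp only [Fin.zero_eta] at hni h1 h2
      rw [h1, h2]
      simp [chart]
      field_simp
      ring
    · refine of_chart 1 (by norm_num) z0 z2 ?_
      intro x y
      simp only [Fin.mk_one] at hni h0 h2
      rw [h0, h2]
      simp [chart]
      field_simp
      ring
    · refine of_chart 2 (by norm_num) z0 z1 ?_
      intro x y
      simp only [Fin.reduceFinMk] at hni h0 h1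
      rw [h0, h1]
      simp [chart]
      field_simp
      ring
  obtain ⟨v, hv, c, hc0, hc⟩ := main
  obtain ⟨s, t, rfl⟩ := mem_span_of_perp hn hv
  exact ⟨s, t, c, hc0, hc⟩

end

end Pool.Agent.H437.MK
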