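import Pool.Agent.H437.MK.Defs
import Pool.Agent.H437.MK.Weil

set_option autoImplicit false

namespace Pool.Agent.H437.MK

open Polynomial Matrix

section

variable {L : Type*} [Field L]

theorem deg_mul_le {a b : L[X]} {m n : WithBot ℕ} (ha : a.degree ≤ m) (hb : b.degree ≤ n) :
    (a * b).degree ≤ m + n :=
  (degree_mul_le a b).trans (add_le_add ha hb)

theorem Bd.mul {r d e : ℕ} {M N : Matrix (Fin 2) (Fin 2) L[X]} (hM : Bd r d M) (hN : Bd r e N) :
    Bd r (d + e) (M * N) := by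
  obtain ⟨a1, a2, a3, a4⟩ := hM
  obtain ⟨b1, b2, b3, b4⟩ := hN
  have hsum : ∀ {a b : L[X]} {m : WithBot ℕ}, a.degree ≤ m → b.degree ≤ m → (a + b).degree ≤ m :=
    fun h1 h2 => (degree_add_le _ _).trans (max_le h1 h2)
  refine ⟨?_, ?_, ?_, ?_⟩
  · rw [Matrix.mul_apply, Fin.sum_univ_two]
    refine hsum ?_ ?_
    · simpa using deg_mul_le a1 b1
    · rw [degree_mul]
      calc (M 0 1).degree + (N 1 0).degree ≤ ((d + 2 * r : ℕ) : WithBot ℕ) + (N 1 0).degree :=
            add_le_add a2 le_rfl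
        _ = (d : ℕ) + ((N 1 0).degree + (2 * r : ℕ)) := by push_cast; ring
        _ ≤ (d : ℕ) + (e : ℕ) := add_le_add le_rfl b3
        _ = ((d + e : ℕ) : WithBot ℕ) := by push_cast; ring
  · rw [Matrix.mul_apply, Fin.sum_univ_two]
    refine hsum ?_ ?_
    · refine (deg_mul_le a1 b2).trans (le_of_eq ?_)
      push_cast; ring
    · refine (deg_mul_le a2 b4).trans (le_of_eq ?_)
      push_cast; ring
  · rw [Matrix.mul_apply, Fin.sum_univ_two]
    have h1 : (M 1 0 * N 0 0).degree + ((2 * r : ℕ) : WithBot ℕ) ≤ ((d + e : ℕ) : WithBot ℕ) := by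
      rw [degree_mul]
      calc (M 1 0).degree + (N 0 0).degree + ((2 * r : ℕ) : WithBot ℕ)
          = ((M 1 0).degree + ((2 * r : ℕ) : WithBot ℕ)) + (N 0 0).degree := by ring
        _ ≤ (d : ℕ) + (e : ℕ) := add_le_add a3 b1
        _ = ((d + e : ℕ) : WithBot ℕ) := by push_cast; ring
    have h2 : (M 1 1 * N 1 0).degree + ((2 * r : ℕ) : WithBot ℕ) ≤ ((d + e : ℕ) : WithBot ℕ) := by
      rw [degree_mul]
      calc (M 1 1).degree + (N 1 0).degree + ((2 * r : ℕ) : WithBot ℕ)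
          = (M 1 1).degree + ((N 1 0).degree + ((2 * r : ℕ) : WithBot ℕ)) := by ring
        _ ≤ (d : ℕ) + (e : ℕ) := add_le_add a4 b3
        _ = ((d + e : ℕ) : WithBot ℕ) := by push_cast; ring
    rcases le_total (M 1 0 * N 0 0).degree (M 1 1 * N 1 0).degree with h | h
    · exact (add_le_add ((degree_add_le _ _).trans (max_le h le_rfl)) le_rfl).trans h2
    · exact (add_le_add ((degree_add_le _ _).trans (max_le le_rfl h)) le_rfl).trans h1
  · rw [Matrix.mul_apply, Fin.sum_univ_two]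
    refine hsum ?_ ?_
    · rw [degree_mul]
      calc (M 1 0).degree + (N 0 1).degree ≤ (M 1 0).degree + ((e + 2 * r : ℕ) : WithBot ℕ) :=
            add_le_add le_rfl b2
        _ = ((M 1 0).degree + (2 * r : ℕ)) + (e : ℕ) := by push_cast; ring
        _ ≤ (d : ℕ) + (e : ℕ) := add_le_add a3 le_rfl
        _ = ((d + e : ℕ) : WithBot ℕ) := by push_cast; ring
    · simpa using deg_mul_le a4 b4

theorem Bd.one (r : ℕ) : Bd r 0 (1 : Matrix (Fin 2) (Fin 2) L[X]) := by
  refine ⟨?_, ?_, ?_, ?_⟩ <;> simp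

theorem Iso.refl (r : ℕ) (φ : Matrix (Fin 2) (Fin 2) L[X]) : Iso r φ φ :=
  ⟨1, 1, Bd.one r, Bd.one r, by simp, by simp⟩

theorem Iso.symm {r : ℕ} {φ ψ : Matrix (Fin 2) (Fin 2) L[X]} (h : Iso r φ ψ) : Iso r ψ φ := by
  obtain ⟨g, k, hg, hk, hgk, rfl⟩ := h
  have hkg : k * g = 1 := mul_eq_one_comm.1 hgk
  refine ⟨k, g, hk, hg, hkg, ?_⟩
  calc k * (g * φ * k) * g = (k * g) * φ * (k * g) := by simp only [Matrix.mul_assoc]
    _ = φ := by rw [hkg]; simp

theorem Iso.trans {r : ℕ} {φ ψ χ : Matrix (Fin 2) (Fin 2) L[X]} (h : Iso r φ ψ)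
    (h' : Iso r ψ χ) : Iso r φ χ := by
  obtain ⟨g, k, hg, hk, hgk, rfl⟩ := h
  obtain ⟨g', k', hg', hk', hgk', rfl⟩ := h'
  refine ⟨g' * g, k * k', hg'.mul hg, hk.mul hk', ?_, ?_⟩
  · calc g' * g * (k * k') = g' * (g * k) * k' := by simp only [Matrix.mul_assoc]
      _ = 1 := by rw [hgk]; simp [hgk']
  · simp only [Matrix.mul_assoc]

theorem Bd.map {M' : Type*} [Field M'] {r d : ℕ} {M : Matrix (Fin 2) (Fin 2) L[X]} (h : Bd r d M)
    (σ : L →+* M') : Bd r d (M.map (Polynomial.map σ)) := by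
  obtain ⟨h1, h2, h3, h4⟩ := h
  refine ⟨?_, ?_, ?_, ?_⟩ <;> simp only [Matrix.map_apply, degree_map] <;> assumption

theorem map_mul' {M' : Type*} [Field M'] (σ : L →+* M') (A B : Matrix (Fin 2) (Fin 2) L[X]) :
    (A * B).map (Polynomial.map σ) = A.map (Polynomial.map σ) * B.map (Polynomial.map σ) := by
  exact map_mul (RingHom.mapMatrix (m := Fin 2) (Polynomial.mapRingHom σ)) A B

theorem map_one' {M' : Type*} [Field M'] (σ : L →+* M') :
    (1 : Matrix (Fin 2) (Fin 2) L[X]).map (Polynomial.map σ) = 1 := by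
  ext i j
  fin_cases i <;> fin_cases j <;> simp

theorem Iso.map {M' : Type*} [Field M'] {r : ℕ} {φ ψ : Matrix (Fin 2) (Fin 2) L[X]}
    (h : Iso r φ ψ) (σ : L →+* M') :
    Iso r (φ.map (Polynomial.map σ)) (ψ.map (Polynomial.map σ)) := by
  obtain ⟨g, k, hg, hk, hgk, rfl⟩ := h
  refine ⟨g.map (Polynomial.map σ), k.map (Polynomial.map σ), hg.map σ, hk.map σ, ?_, ?_⟩
  · rw [← map_mul', hgk, map_one']
  · rw [← map_mul', ← map_mul']

theorem lineF_eq_Gp (u w : Fin 3 → L) : lineF u w = Gp u w := by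
  simp only [lineF, f, Gp, Pq, qf, bf, x1, x2, x3, Matrix.cons_val_zero, Matrix.cons_val_one,
    Matrix.cons_val_two, Matrix.head_cons, Matrix.tail_cons, map_add, map_mul, map_pow, map_neg,
    map_one, map_ofNat]
  ring

theorem lineF_eval (u w : Fin 3 → L) (T : L) : (lineF u w).eval T = f (u + T • w) := by
  rw [lineF_eq_Gp, Gp_eval]

theorem lineF_map {M' : Type*} [Field M'] (σ : L →+* M') (u w : Fin 3 → L) :
    (lineF u w).map σ = lineF (fun i => σ (u i)) (fun i => σ (w i)) := by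
  rw [lineF_eq_Gp, lineF_eq_Gp, Gp_map]

theorem IsSheaf.iso {u w : Fin 3 → L} {r : ℕ} {φ ψ : Matrix (Fin 2) (Fin 2) L[X]}
    (h : IsSheaf u w r φ) (h' : Iso r φ ψ) : IsSheaf u w r ψ := by
  obtain ⟨g, k, hg, hk, hgk, rfl⟩ := h'
  have hkg : k * g = 1 := mul_eq_one_comm.1 hgk
  refine ⟨by simpa using (hg.mul h.1).mul hk, ?_⟩
  calc g * φ * k * (g * φ * k) = g * φ * (k * g) * φ * k := by simp only [Matrix.mul_assoc]
    _ = g * (φ * φ) * k := by rw [hkg]; simp only [Matrix.mul_assoc, Matrix.mul_one]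
    _ = lineF u w • (1 : Matrix (Fin 2) (Fin 2) L[X]) := by
      rw [h.2, Matrix.mul_smul, Matrix.smul_mul, Matrix.mul_one, hgk]

theorem IsSheaf.map {M' : Type*} [Field M'] {u w : Fin 3 → L} {r : ℕ}
    {φ : Matrix (Fin 2) (Fin 2) L[X]} (h : IsSheaf u w r φ) (σ : L →+* M') :
    IsSheaf (fun i => σ (u i)) (fun i => σ (w i)) r (φ.map (Polynomial.map σ)) := by
  refine ⟨h.1.map σ, ?_⟩
  rw [← map_mul', h.2, ← lineF_map]
  ext i j
  fin_cases i <;> fin_cases j <;> simp

/-- the entries of a sheaf over a field in which the sextic has no tritangent lines. -/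
theorem IsSheaf.entries {u w : Fin 3 → L} {r : ℕ} {φ : Matrix (Fin 2) (Fin 2) L[X]}
    (h : IsSheaf u w r φ) (hsq : ∀ H : L[X], lineF u w ≠ H ^ 2) :
    φ 1 1 = -φ 0 0 ∧ φ 0 0 ^ 2 + φ 0 1 * φ 1 0 = lineF u w ∧ φ 0 1 ≠ 0 ∧ φ 1 0 ≠ 0 := by
  have h00 := congrFun (congrFun h.2 0) 0
  have h01 := congrFun (congrFun h.2 0) 1
  have h10 := congrFun (congrFun h.2 1) 0
  have h11 := congrFun (congrFun h.2 1) 1
  simp only [Matrix.mul_apply, Fin.sum_univ_two, Matrix.smul_apply, Matrix.one_apply_eq,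
    smul_eq_mul, mul_one, ne_eq, zero_ne_one, not_false_eq_true, Matrix.one_apply_ne, mul_zero,
    one_ne_zero] at h00 h01 h10 h11
  have hb : φ 0 1 ≠ 0 := by
    intro hb
    apply hsq (φ 0 0)
    rw [← h00, hb]; ring
  have hc : φ 1 0 ≠ 0 := by
    intro hc
    apply hsq (φ 0 0)
    rw [← h00, hc]; ring
  have ht : φ 0 0 + φ 1 1 = 0 := by
    have : φ 0 1 * (φ 0 0 + φ 1 1) = 0 := by linear_combination h01
    exact (mul_eq_zero.1 this).resolve_left hb
  refine ⟨by linear_combination ht, by linear_combination h00, hb, hc⟩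

theorem cr_ne_of_indep {K : Type*} [Field K] {u w : Fin 3 → K}
    (h : LinearIndependent K ![u, w]) : cr u w ≠ 0 := by
  intro h0
  rw [LinearIndependent.pair_iff] at h
  have e0 := congrFun h0 0
  have e1 := congrFun h0 1
  have e2 := congrFun h0 2
  simp only [cr, Matrix.cons_val_zero, Matrix.cons_val_one, Matrix.cons_val_two,
    Matrix.head_cons, Matrix.tail_cons, Pi.zero_apply] at e0 e1 e2
  have hw : w = 0 := by
    funext i
    have key : (w i) • u + (-(u i)) • w = 0 := by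
      funext j
      simp only [Pi.add_apply, Pi.smul_apply, smul_eq_mul, Pi.zero_apply]
      fin_cases i <;> fin_cases j <;>
        simp only [Fin.zero_eta, Fin.mk_one, Fin.reduceFinMk]
      · ring
      · linear_combination -e2
      · linear_combination e1
      · linear_combination e2
      · ring
      · linear_combination -e0
      · linear_combination -e1
      · linear_combination e0
      · ring
    exact (h _ _ key).1
  have := h 0 1 (by rw [hw]; simp)
  exact one_ne_zero this.2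

end

end Pool.Agent.H437.MK
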