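import Pool.Agent.H437.MK.Forms

set_option autoImplicit false

namespace Pool.Agent.H437.MK

open Polynomial

section Nums

variable {K : Type*} [Field K]

/-- the number `2 · 3 · 5 · 7 · 11 · 13 · 29 · 41`. -/
def N0 : ℕ := 2 * 3 * 5 * 7 * 11 * 13 * 29 * 41

/-- the eight primes are invertible. -/
structure Good (K : Type*) [Field K] : Prop where
  h2 : (2 : K) ≠ 0
  h3 : (3 : K) ≠ 0
  h5 : (5 : K) ≠ 0
  h7 : (7 : K) ≠ 0
  h11 : (11 : K) ≠ 0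
  h13 : (13 : K) ≠ 0
  h29 : (29 : K) ≠ 0
  h41 : (41 : K) ≠ 0

theorem good_of (h : ((N0 : ℕ) : K) ≠ 0) : Good K := by
  have h' : (2 * 3 * 5 * 7 * 11 * 13 * 29 * 41 : K) ≠ 0 := by
    have e : ((N0 : ℕ) : K) = 2 * 3 * 5 * 7 * 11 * 13 * 29 * 41 := by norm_num [N0]
    rw [← e]; exact h
  simp only [mul_ne_zero_iff] at h'
  obtain ⟨⟨⟨⟨⟨⟨⟨h2, h3⟩, h5⟩, h7⟩, h11⟩, h13⟩, h29⟩, h41⟩ := h'
  exact ⟨h2, h3, h5, h7, h11, h13, h29, h41⟩

/-- coefficients of the three conics. -/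
def x1 : Fin 3 → K := ![1, 1, 3]
def x2 : Fin 3 → K := ![1, 8, 14]
def x3 : Fin 3 → K := ![1, 4, 10]

theorem caseA (hK : Good K) {N : Fin 3 → K} (h1 : ef x1 N = 0) (h2 : ef x2 N = 0)
    (h3 : ef x3 N = 0) : N = 0 := by
  simp [ef, x1, x2, x3] at h1 h2 h3
  have h104 : (104 : K) ≠ 0 := by
    have : (104 : K) = 2 * 2 * 2 * 13 := by norm_num
    rw [this]
    exact mul_ne_zero (mul_ne_zero (mul_ne_zero hK.h2 hK.h2) hK.h2) hK.h13
  have e0 : (104 : K) * N 0 = 0 := by linear_combination (-24) * h1 - 2 * h2 + 10 * h3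
  have e1 : (104 : K) * N 1 = 0 := by linear_combination (-128) * h1 - 28 * h2 + 88 * h3
  have e2 : (104 : K) * N 2 = 0 := by linear_combination 560 * h1 + 90 * h2 - 294 * h3
  funext i
  fin_cases i
  · exact (mul_eq_zero.1 e0).resolve_left h104
  · exact (mul_eq_zero.1 e1).resolve_left h104
  · exact (mul_eq_zero.1 e2).resolve_left h104

/-- one coefficient of the pencil vanishes. -/
theorem caseB0 {x0 x1 x2 y0 y1 y2 z0 z1 z2 N0 N1 N2 a b : K} (ha : a ≠ 0)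
    (hd : b * x0 = a * y0)
    (r01 : (b * x0 - a * y0) * N1 + (b * x1 - a * y1) * N0 = 0)
    (r12 : (b * x1 - a * y1) * N2 + (b * x2 - a * y2) * N1 = 0)
    (hE : z1 * z2 * N0 + z2 * z0 * N1 + z0 * z1 * N2 = 0) (hz0 : z0 ≠ 0)
    (hR : x0 * y1 - x1 * y0 ≠ 0)
    (hD : (y0 * x2 - x0 * y2) * z1 - (y0 * x1 - x0 * y1) * z2 ≠ 0) :
    N0 = 0 ∧ N1 = 0 ∧ N2 = 0 := by
  have hd1 : b * x1 - a * y1 ≠ 0 := by
    intro h
    apply mul_ne_zero ha hR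
    linear_combination (-x0) * h + x1 * hd
  have hN0 : N0 = 0 := by
    have : (b * x1 - a * y1) * N0 = 0 := by linear_combination r01 - N1 * hd
    exact (mul_eq_zero.1 this).resolve_left hd1
  subst hN0
  have hE' : z2 * N1 + z1 * N2 = 0 := by
    have : z0 * (z2 * N1 + z1 * N2) = 0 := by linear_combination hE
    exact (mul_eq_zero.1 this).resolve_left hz0
  have hN1 : N1 = 0 := by
    have h1 : (a * ((y0 * x2 - x0 * y2) * z1 - (y0 * x1 - x0 * y1) * z2)) * N1 = 0 := by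
      linear_combination (-x0 * (b * x1 - a * y1)) * hE' + x0 * z1 * r12 +
        ((-x2) * z1 * N1 + x1 * z2 * N1) * hd
    exact (mul_eq_zero.1 h1).resolve_left (mul_ne_zero ha hD)
  subst hN1
  refine ⟨rfl, rfl, ?_⟩
  have : (b * x1 - a * y1) * N2 = 0 := by linear_combination r12
  exact (mul_eq_zero.1 this).resolve_left hd1

theorem caseB1 (h2 : (2 : K) ≠ 0) {d0 d1 d2 N0 N1 N2 : K} (r01 : d0 * N1 + d1 * N0 = 0)
    (r02 : d0 * N2 + d2 * N0 = 0) (r12 : d1 * N2 + d2 * N1 = 0) (h0 : d0 ≠ 0) (h1 : d1 ≠ 0)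
    (h2' : d2 ≠ 0) : N0 = 0 ∧ N1 = 0 ∧ N2 = 0 := by
  have e0 : (2 * d1 * d2) * N0 = 0 := by
    linear_combination d2 * r01 + d1 * r02 - d0 * r12
  have e0' := (mul_eq_zero.1 e0).resolve_left (mul_ne_zero (mul_ne_zero h2 h1) h2')
  subst e0'
  refine ⟨rfl, ?_, ?_⟩
  · have : d0 * N1 = 0 := by linear_combination r01
    exact (mul_eq_zero.1 this).resolve_left h0
  · have : d0 * N2 = 0 := by linear_combination r02
    exact (mul_eq_zero.1 this).resolve_left h0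

/-- the numbers that have to be different from zero in the second case. -/
def Bcond (x y z : Fin 3 → K) : Prop :=
  (z 0 ≠ 0 ∧ z 1 ≠ 0 ∧ z 2 ≠ 0) ∧
  (x 0 * y 1 - x 1 * y 0 ≠ 0 ∧ x 1 * y 0 - x 0 * y 1 ≠ 0 ∧ x 2 * y 0 - x 0 * y 2 ≠ 0) ∧
  ((y 0 * x 2 - x 0 * y 2) * z 1 - (y 0 * x 1 - x 0 * y 1) * z 2 ≠ 0 ∧
   (y 1 * x 2 - x 1 * y 2) * z 0 - (y 1 * x 0 - x 1 * y 0) * z 2 ≠ 0 ∧
   (y 2 * x 1 - x 2 * y 1) * z 0 - (y 2 * x 0 - x 2 * y 0) * z 1 ≠ 0)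

theorem caseB (h2 : (2 : K) ≠ 0) {x y z N : Fin 3 → K} {a b : K} (ha : a ≠ 0)
    (hB : Bcond x y z)
    (r01 : (b * x 0 - a * y 0) * N 1 + (b * x 1 - a * y 1) * N 0 = 0)
    (r02 : (b * x 0 - a * y 0) * N 2 + (b * x 2 - a * y 2) * N 0 = 0)
    (r12 : (b * x 1 - a * y 1) * N 2 + (b * x 2 - a * y 2) * N 1 = 0)
    (hE : ef z N = 0) : N = 0 := by
  have main : N 0 = 0 ∧ N 1 = 0 ∧ N 2 = 0 := by
    obtain ⟨⟨hz0, hz1, hz2⟩, ⟨hR01, hR10, hR20⟩, hD0, hD1, hD2⟩ := hB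
    simp only [ef] at hE
    by_cases h0 : b * x 0 - a * y 0 = 0
    · exact caseB0 ha (sub_eq_zero.1 h0) r01 r12 hE hz0 hR01 hD0
    by_cases h1 : b * x 1 - a * y 1 = 0
    · have := caseB0 (x0 := x 1) (x1 := x 0) (x2 := x 2) (y0 := y 1) (y1 := y 0) (y2 := y 2)
        (z0 := z 1) (z1 := z 0) (z2 := z 2) (N0 := N 1) (N1 := N 0) (N2 := N 2) (a := a) (b := b)
        ha (sub_eq_zero.1 h1) (by linear_combination r01) (by linear_combination r02)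
        (by linear_combination hE) hz1 hR10 hD1
      exact ⟨this.2.1, this.1, this.2.2⟩
    by_cases h3 : b * x 2 - a * y 2 = 0
    · have := caseB0 (x0 := x 2) (x1 := x 0) (x2 := x 1) (y0 := y 2) (y1 := y 0) (y2 := y 1)
        (z0 := z 2) (z1 := z 0) (z2 := z 1) (N0 := N 2) (N1 := N 0) (N2 := N 1) (a := a) (b := b)
        ha (sub_eq_zero.1 h3) (by linear_combination r02) (by linear_combination r01)
        (by linear_combination hE) hz2 hR20 hD2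
      exact ⟨this.2.1, this.2.2, this.1⟩
    exact caseB1 h2 r01 r02 r12 h0 h1 h3
  funext i
  fin_cases i
  · exact main.1
  · exact main.2.1
  · exact main.2.2

/-- a zero of two diagonal forms on the line `n`. -/
theorem caseC_pt {x y v n : Fin 3 → K} (hx : qf x v = 0) (hy : qf y v = 0) (hv : v ≠ 0)
    (hn : n 0 * v 0 + n 1 * v 1 + n 2 * v 2 = 0)
    (hR : cr x y 0 ≠ 0 ∧ cr x y 1 ≠ 0 ∧ cr x y 2 ≠ 0) : sf (cr x y) (sqv n) = 0 := by
  obtain ⟨h0, h1, h2⟩ := hR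
  simp only [qf] at hx hy
  have e01 : cr x y 0 * v 1 ^ 2 = cr x y 1 * v 0 ^ 2 := by
    simp [cr]; linear_combination (y 2) * hx - x 2 * hy
  have e02 : cr x y 0 * v 2 ^ 2 = cr x y 2 * v 0 ^ 2 := by
    simp [cr]; linear_combination (-y 1) * hx + x 1 * hy
  have hv0 : v 0 ≠ 0 := by
    intro h
    rw [h] at e01 e02
    apply hv
    funext i
    fin_cases i
    · exact h
    · have : cr x y 0 * v 1 ^ 2 = 0 := by rw [e01]; ring
      exact pow_eq_zero_iff two_ne_zero |>.1 ((mul_eq_zero.1 this).resolve_left h0)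
    · have : cr x y 0 * v 2 ^ 2 = 0 := by rw [e02]; ring
      exact pow_eq_zero_iff two_ne_zero |>.1 ((mul_eq_zero.1 this).resolve_left h0)
  have key : sf (fun i => v i ^ 2) (sqv n) = 0 := by
    simp only [sf, sqv]
    linear_combination ((n 0 * v 0 - n 1 * v 1 - n 2 * v 2) * (n 0 * v 0 + n 1 * v 1 - n 2 * v 2) *
      (n 0 * v 0 - n 1 * v 1 + n 2 * v 2)) * hn
  have h4 : (v 0 ^ 2) ^ 2 * sf (cr x y) (sqv n) = (cr x y 0) ^ 2 * sf (fun i => v i ^ 2) (sqv n) := by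
    have e01' := e01
    have e02' := e02
    simp only [sf]
    generalize cr x y 0 = r0 at *
    generalize cr x y 1 = r1 at *
    generalize cr x y 2 = r2 at *
    generalize sqv n 0 = m0
    generalize sqv n 1 = m1
    generalize sqv n 2 = m2
    linear_combination
      (-(r1 * v 0 ^ 2 * m1 ^ 2 + r0 * v 1 ^ 2 * m1 ^ 2) + 2 * r0 * v 0 ^ 2 * m0 * m1
        + 2 * r2 * v 0 ^ 2 * m1 * m2) * e01
      + (-(r2 * v 0 ^ 2 * m2 ^ 2 + r0 * v 2 ^ 2 * m2 ^ 2) + 2 * r0 * v 0 ^ 2 * m0 * m2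
        + 2 * r0 * v 1 ^ 2 * m1 * m2) * e02
  rw [key, mul_zero] at h4
  exact (mul_eq_zero.1 h4).resolve_left (pow_ne_zero 2 (pow_ne_zero 2 hv0))

theorem caseC (hK : Good K) {N : Fin 3 → K} (s1 : sf ![6, 1, -1] N = 0)
    (s2 : sf ![2, 7, -3] N = 0) (s3 : sf ![-10, -11, 7] N = 0) : N = 0 := by
  simp [sf] at s1 s2 s3
  have h1 : (36 : K) * N 0 ^ 2 + N 1 ^ 2 - 12 * N 0 * N 1 + N 2 ^ 2 + 12 * N 0 * N 2
      + 2 * N 1 * N 2 = 0 := by linear_combination s1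
  have h2 : (4 : K) * N 0 ^ 2 + 49 * N 1 ^ 2 - 28 * N 0 * N 1 + 9 * N 2 ^ 2 + 12 * N 0 * N 2
      + 42 * N 1 * N 2 = 0 := by linear_combination s2
  have h3 : (100 : K) * N 0 ^ 2 + 121 * N 1 ^ 2 - 220 * N 0 * N 1 + 49 * N 2 ^ 2
      + 140 * N 0 * N 2 + 154 * N 1 * N 2 = 0 := by linear_combination s3
  clear s1 s2 s3
  have e0 : ((2 ^ 11 * 7 * 41 : K)) * N 0 ^ 4 = 0 := by
    linear_combination (exp := 1) ((9495)*(N 2^2) + (52700)*(N 1*N 2) + (68365)*(N 1^2) + (6356)*(N 0*N 2) + (-33860)*(N 0*N 1) + (22084)*(N 0^2))*h1 + ((-1055)*(N 2^2) + (-1300)*(N 1*N 2) + (-21275)*(N 0*N 2) + (12173)*(N 0*N 1) + (-45262)*(N 0^2))*h2 + ((-320)*(N 1*N 2) + (-565)*(N 1^2) + (1711)*(N 0*N 2) + (1103)*(N 0*N 1) + (-262)*(N 0^2))*h3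
  have e1 : ((2 ^ 5 * 7 * 41 : K)) * N 1 ^ 4 = 0 := by
    linear_combination (exp := 1) ((-33745)*(N 2^2) + (-125957)*(N 1*N 2) + (-95610)*(N 1^2) + (-70002)*(N 0*N 2) + (106684)*(N 0*N 1) + (-40696)*(N 0^2))*h1 + ((-1254)*(N 2^2) + (-41)*(N 1*N 2) + (3603)*(N 1^2) + (7884)*(N 0*N 2) + (-26156)*(N 0*N 1) + (52064)*(N 0^2))*h2 + ((919)*(N 2^2) + (2142)*(N 1*N 2) + (-593)*(N 1^2) + (5926)*(N 0*N 2) + (-16)*(N 0*N 1) + (12568)*(N 0^2))*h3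
  have e2 : ((2 ^ 7 * 7 * 41 : K)) * N 2 ^ 4 = 0 := by
    linear_combination (exp := 1) ((-2372278)*(N 2^2) + (-8740594)*(N 1*N 2) + (-6617308)*(N 1^2) + (-4689312)*(N 0*N 2) + (6998056)*(N 0*N 1) + (-2604256)*(N 0^2))*h1 + ((-165470)*(N 2^2) + (-179158)*(N 1*N 2) + (91213)*(N 1^2) + (313729)*(N 0*N 2) + (-1702639)*(N 0*N 1) + (3801654)*(N 0^2))*h2 + ((79556)*(N 2^2) + (199912)*(N 1*N 2) + (17751)*(N 1^2) + (432263)*(N 0*N 2) + (28783)*(N 0*N 1) + (785466)*(N 0^2))*h3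
  have aux : ∀ k : ℕ, ((2 : K) ^ k * 7 * 41) ≠ 0 := fun k =>
    mul_ne_zero (mul_ne_zero (pow_ne_zero k hK.h2) hK.h7) hK.h41
  funext i
  fin_cases i
  · exact pow_eq_zero_iff (by norm_num) |>.1 ((mul_eq_zero.1 e0).resolve_left (aux 11))
  · exact pow_eq_zero_iff (by norm_num) |>.1 ((mul_eq_zero.1 e1).resolve_left (aux 5))
  · exact pow_eq_zero_iff (by norm_num) |>.1 ((mul_eq_zero.1 e2).resolve_left (aux 7))

end Nums

end Pool.Agent.H437.MK
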