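import Pool.Agent.H437.MK.NoSq

/-!
# Sheaves on the double plane `w² = f(x, y, z)` supported on preimages of lines

`π : Y' → ℙ²` is the double covering `w² = f`, `f` the sextic of `NoSq.lean`, and `Y → Y'` the minimal
resolution, a K3 surface over `ℚ`; `h` is the pull-back of the class of a line. A pure sheaf `F` of
Mukai vector `(0, h, 2)` on `Y`, stable for a polarisation near `h`, is supported on the preimage of a
line `ℓ ≅ ℙ¹`; its direct image `G` on `ℓ` is a vector bundle of rank `2` and of degree `0`, that is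
`G ≅ 𝒪(r) ⊕ 𝒪(-r)`, on which `w` acts as `φ : G → G(3)` with `φ² = f|_ℓ`.
-/

set_option autoImplicit false

namespace Pool.Agent.H437.MK

open Polynomial Matrix

section

variable {L : Type*} [Field L]

/-- `X` is a coordinate of `ℙ¹` over `L` and `G = 𝒪(r) ⊕ 𝒪(-r)`. The homomorphisms `G → G(d)` are
the matrices `M` over `L[X]` whose entries satisfy these bounds for the degrees. -/
def Bd (r d : ℕ) (M : Matrix (Fin 2) (Fin 2) L[X]) : Prop :=
  (M 0 0).degree ≤ (d : ℕ) ∧ (M 0 1).degree ≤ ((d + 2 * r : ℕ)) ∧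
  (M 1 0).degree + ((2 * r : ℕ)) ≤ (d : ℕ) ∧ (M 1 1).degree ≤ (d : ℕ)

/-- `φ, ψ : G → G(3)` are conjugate under an automorphism `g` of `G = 𝒪(r) ⊕ 𝒪(-r)`. -/
def Iso (r : ℕ) (φ ψ : Matrix (Fin 2) (Fin 2) L[X]) : Prop :=
  ∃ g h : Matrix (Fin 2) (Fin 2) L[X], Bd r 0 g ∧ Bd r 0 h ∧ g * h = 1 ∧ g * φ * h = ψ

/-- The restriction of the sextic to the line through `u` and `w`, in the coordinate `X`. -/
noncomputable def lineF (u w : Fin 3 → L) : L[X] := f (fun i => C (u i) + C (w i) * X)

/-- `φ : G → G(3)` with `φ² = f` on the line through `u` and `w`. -/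
def IsSheaf (u w : Fin 3 → L) (r : ℕ) (φ : Matrix (Fin 2) (Fin 2) L[X]) : Prop :=
  Bd r 3 φ ∧ φ * φ = lineF u w • (1 : Matrix (Fin 2) (Fin 2) L[X])

end

/-- `L` is an algebraic closure of `K`. A `K`-point of the moduli space: a line over `K` (through `u`
and `w`) and an isomorphism class of sheaves on it over `L` which is invariant under the Galois
group; `G ≅ 𝒪(r) ⊕ 𝒪(-r)`, and the class is that of `φ`. -/
structure Pt (K L : Type*) [Field K] [Field L] [Algebra K L] where
  /-- a point of the line -/
  u : Fin 3 → K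
  /-- another point of the line -/
  w : Fin 3 → K
  indep : LinearIndependent K ![u, w]
  /-- the splitting type of the bundle -/
  r : ℕ
  /-- multiplication by the coordinate `w` of the double plane -/
  φ : Matrix (Fin 2) (Fin 2) L[X]
  sheaf : IsSheaf (fun i => algebraMap K L (u i)) (fun i => algebraMap K L (w i)) r φ
  inv : ∀ σ : L ≃ₐ[K] L, Iso r φ (φ.map (Polynomial.map (σ : L →+* L)))

/-- The isomorphism class contains a sheaf that is defined over `K`. In other words: the value at
the point of the Brauer class of the moduli space is zero. -/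
def Pt.Split {K L : Type*} [Field K] [Field L] [Algebra K L] (x : Pt K L) : Prop :=
  ∃ φ₀ : Matrix (Fin 2) (Fin 2) K[X], IsSheaf x.u x.w x.r φ₀ ∧
    Iso x.r x.φ (φ₀.map (Polynomial.map (algebraMap K L)))

end Pool.Agent.H437.MK
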