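import Pool.Agent.H437.MK.Basic

set_option autoImplicit false

namespace Pool.Agent.H437.MK

open Polynomial Matrix

section Fixed

variable {K L : Type*} [Field K] [Field L] [Algebra K L]

theorem lift_poly [IsGalois K L] (P : L[X]) (h : ∀ σ : L ≃ₐ[K] L, P.map (σ : L →+* L) = P) :
    ∃ P₀ : K[X], P₀.map (algebraMap K L) = P := by
  have : P ∈ Polynomial.lifts (algebraMap K L) := by
    rw [Polynomial.lifts_iff_coeff_lifts]
    intro n
    rw [InfiniteGalois.mem_range_algebraMap_iff_fixed]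
    intro σ
    have := congrArg (fun Q => Q.coeff n) (h σ)
    simpa using this
  exact (Polynomial.mem_lifts P).1 this

theorem split_of_fixed [IsGalois K L] (x : Pt K L) (ψ : Matrix (Fin 2) (Fin 2) L[X])
    (hiso : Iso x.r x.φ ψ)
    (hfix : ∀ σ : L ≃ₐ[K] L, ψ.map (Polynomial.map (σ : L →+* L)) = ψ) : x.Split := by
  have hent : ∀ i j, ∃ P₀ : K[X], P₀.map (algebraMap K L) = ψ i j := by
    intro i j
    apply lift_poly
    intro σ
    exact congrFun (congrFun (hfix σ) i) j
  choose P hP using hent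
  have hmap : (Matrix.of P).map (Polynomial.map (algebraMap K L)) = ψ := by
    ext1 i j
    simp [hP]
  have hs := x.sheaf.iso hiso
  refine ⟨Matrix.of P, ⟨?_, ?_⟩, by rw [hmap]; exact hiso⟩
  · obtain ⟨h1, h2, h3, h4⟩ := hs.1
    refine ⟨?_, ?_, ?_, ?_⟩
    · rw [← hP, degree_map] at h1; exact h1
    · rw [← hP, degree_map] at h2; exact h2
    · rw [← hP, degree_map] at h3; exact h3
    · rw [← hP, degree_map] at h4; exact h4
  · have h2 := hs.2
    have hinj : Function.Injective (Polynomial.map (algebraMap K L)) :=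
      Polynomial.map_injective _ (algebraMap K L).injective
    ext1 i j
    apply hinj
    have h3 := congrFun (congrFun h2 i) j
    rw [← lineF_map (algebraMap K L) x.u x.w] at h3
    rw [← hmap, ← map_mul'] at h3
    simp only [Matrix.map_apply] at h3
    rw [h3]
    fin_cases i <;> fin_cases j <;> simp

/-- descent by means of a normal form. -/
theorem split_of_normal [IsGalois K L] (x : Pt K L) (N : Matrix (Fin 2) (Fin 2) L[X] → Prop)
    (hex : ∃ ψ, Iso x.r x.φ ψ ∧ N ψ)
    (hσ : ∀ (σ : L ≃ₐ[K] L) ψ, N ψ → N (ψ.map (Polynomial.map (σ : L →+* L))))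
    (huniq : ∀ ψ ψ', IsSheaf (fun i => algebraMap K L (x.u i)) (fun i => algebraMap K L (x.w i))
      x.r ψ → IsSheaf (fun i => algebraMap K L (x.u i)) (fun i => algebraMap K L (x.w i))
      x.r ψ' → Iso x.r ψ ψ' → N ψ → N ψ' → ψ = ψ') : x.Split := by
  obtain ⟨ψ, hiso, hN⟩ := hex
  apply split_of_fixed x ψ hiso
  intro σ
  have h1 : Iso x.r ψ (ψ.map (Polynomial.map (σ : L →+* L))) :=
    hiso.symm.trans ((x.inv σ).trans (hiso.map _))
  have hs := x.sheaf.iso hiso
  exact (huniq ψ _ hs (hs.iso h1) h1 hN (hσ σ ψ hN)).symm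

end Fixed

section Zero

variable {L : Type*} [Field L]

/-- a constant matrix. -/
noncomputable def cm (a b c d : L) : Matrix (Fin 2) (Fin 2) L[X] := !![C a, C b; C c, C d]

theorem Bd.cm (a b c d : L) : Bd 0 0 (cm a b c d) := by
  refine ⟨?_, ?_, ?_, ?_⟩ <;> simp [MK.cm, degree_C_le]

/-- conjugation by a constant matrix, entries. -/
theorem iso_cm {φ : Matrix (Fin 2) (Fin 2) L[X]} {a b c d e : L} (he : e ≠ 0)
    (h : a * d - b * c = e) :
    Iso 0 φ (cm (d / e) (-b / e) (-c / e) (a / e) * φ * cm a b c d) := by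
  refine ⟨_, _, Bd.cm _ _ _ _, Bd.cm _ _ _ _, ?_, rfl⟩
  have e' : ∀ (s t : L), C s * C t = C (s * t) := fun s t => (C_mul).symm
  have h1 : d / e * a + -b / e * c = 1 := by field_simp; linear_combination h
  have h2 : d / e * b + -b / e * d = 0 := by field_simp; ring
  have h3 : -c / e * a + a / e * c = 0 := by field_simp; ring
  have h4 : -c / e * b + a / e * d = 1 := by field_simp; linear_combination h
  ext1 i j
  fin_cases i <;> fin_cases j <;>
    simp only [cm, Matrix.mul_apply, Fin.sum_univ_two, Fin.zero_eta, Fin.mk_one, Matrix.of_apply,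
      Matrix.cons_val', Matrix.cons_val_zero, Matrix.cons_val_one, Matrix.cons_val_fin_one,
      Matrix.one_apply_eq, ne_eq, zero_ne_one, one_ne_zero, not_false_eq_true,
      Matrix.one_apply_ne, e', ← C_add, h1, h2, h3, h4, C_0, C_1]

/-- the normal form for `r = 0`. -/
def N0' (T c : L) (ψ : Matrix (Fin 2) (Fin 2) L[X]) : Prop :=
  (ψ 0 0).eval T = c ∧ (ψ 0 1).eval T = 0 ∧ (ψ 1 0).eval T = 0 ∧ (ψ 1 1).eval T = -c ∧
    (ψ 0 1).Monic

theorem exists_N0 {u w : Fin 3 → L} {φ : Matrix (Fin 2) (Fin 2) L[X]}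
    (h : IsSheaf u w 0 φ) (hsq : ∀ H : L[X], lineF u w ≠ H ^ 2) (h2 : (2 : L) ≠ 0) {T c : L}
    (hc : c ≠ 0) (hT : (lineF u w).eval T = c ^ 2) : ∃ ψ, Iso 0 φ ψ ∧ N0' T c ψ := by
  -- step 1 : the value at `T` of the upper left entry is not `-c`
  have step1 : ∃ ψ, Iso 0 φ ψ ∧ (ψ 0 0).eval T + c ≠ 0 := by
    by_cases h0 : (φ 0 0).eval T + c = 0
    · refine ⟨_, iso_cm (φ := φ) (a := 0) (b := 1) (c := 1) (d := 0) (e := -1) (by norm_num)
        (by norm_num), ?_⟩
      have e11 := (h.entries hsq).1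
      simp only [cm, Matrix.mul_apply, Fin.sum_univ_two, Matrix.of_apply,
        Matrix.cons_val', Matrix.cons_val_zero, Matrix.cons_val_one, Matrix.cons_val_fin_one,
        eval_add, eval_mul, eval_C, e11, eval_neg]
      intro h3
      apply mul_ne_zero h2 hc
      norm_num at h3
      linear_combination h3 + h0
    · exact ⟨φ, Iso.refl 0 φ, h0⟩
  obtain ⟨ψ₁, hiso1, h1⟩ := step1
  have hs1 := h.iso hiso1
  obtain ⟨e11, e00, eb, ec⟩ := hs1.entries hsq
  set a := (ψ₁ 0 0).eval T with ha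
  set b := (ψ₁ 0 1).eval T with hb
  set d := (ψ₁ 1 0).eval T with hd
  have habd : a ^ 2 + b * d = c ^ 2 := by
    rw [← hT, ← e00]; simp [ha, hb, hd]
  have e11' : (ψ₁ 1 1).eval T = -a := by rw [e11]; simp [ha]
  -- step 2 : diagonalise
  have hdet : (a + c) * (a + c) - (-b) * d = 2 * c * (a + c) := by linear_combination habd
  have hiso2 := iso_cm (φ := ψ₁) (mul_ne_zero (mul_ne_zero h2 hc) h1) hdet
  set ψ₂ := (cm ((a + c) / (2 * c * (a + c))) (-(-b) / (2 * c * (a + c)))
    (-d / (2 * c * (a + c))) ((a + c) / (2 * c * (a + c))) * ψ₁ *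
      cm (a + c) (-b) d (a + c)) with hψ₂
  have hs2 := hs1.iso hiso2
  have v : (ψ₂ 0 0).eval T = c ∧ (ψ₂ 0 1).eval T = 0 ∧ (ψ₂ 1 0).eval T = 0 ∧
      (ψ₂ 1 1).eval T = -c := by
    rw [hψ₂]
    simp only [cm, Matrix.mul_apply, Fin.sum_univ_two, Matrix.of_apply,
      Matrix.cons_val', Matrix.cons_val_zero, Matrix.cons_val_one, Matrix.cons_val_fin_one,
      eval_add, eval_mul, eval_C, e11', ← ha, ← hb, ← hd]
    refine ⟨?_, ?_, ?_, ?_⟩
    · field_simp; linear_combination (a + 2 * c) * habd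
    · field_simp; linear_combination (-b) * habd
    · field_simp; linear_combination (-d) * habd
    · field_simp; linear_combination (-a - 2 * c) * habd
  obtain ⟨-, -, eb2, -⟩ := hs2.entries hsq
  -- step 3 : make the upper right entry monic
  set β := (ψ₂ 0 1).leadingCoeff with hβ
  have hβ0 : β ≠ 0 := leadingCoeff_ne_zero.2 eb2
  have hiso3 := iso_cm (φ := ψ₂) (a := β) (b := 0) (c := 0) (d := 1) (e := β) hβ0 (by ring)
  refine ⟨_, hiso1.trans (hiso2.trans hiso3), ?_⟩
  obtain ⟨v1, v2, v3, v4⟩ := v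
  refine ⟨?_, ?_, ?_, ?_, ?_⟩
  · simp only [cm, Matrix.mul_apply, Fin.sum_univ_two, Matrix.of_apply,
      Matrix.cons_val', Matrix.cons_val_zero, Matrix.cons_val_one, Matrix.cons_val_fin_one,
      eval_add, eval_mul, eval_C, v1, v2, v3, v4]
    simp [hβ0, mul_assoc, mul_comm c β]
  · simp only [cm, Matrix.mul_apply, Fin.sum_univ_two, Matrix.of_apply,
      Matrix.cons_val', Matrix.cons_val_zero, Matrix.cons_val_one, Matrix.cons_val_fin_one,
      eval_add, eval_mul, eval_C, v1, v2, v3, v4]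
    simp
  · simp only [cm, Matrix.mul_apply, Fin.sum_univ_two, Matrix.of_apply,
      Matrix.cons_val', Matrix.cons_val_zero, Matrix.cons_val_one, Matrix.cons_val_fin_one,
      eval_add, eval_mul, eval_C, v1, v2, v3, v4]
    simp
  · simp only [cm, Matrix.mul_apply, Fin.sum_univ_two, Matrix.of_apply,
      Matrix.cons_val', Matrix.cons_val_zero, Matrix.cons_val_one, Matrix.cons_val_fin_one,
      eval_add, eval_mul, eval_C, v1, v2, v3, v4]
    simp [hβ0, mul_assoc, mul_comm c β]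
  · have : (cm (1 / β) (-0 / β) (-0 / β) (β / β) * ψ₂ * cm β 0 0 1) 0 1 = C β⁻¹ * ψ₂ 0 1 := by
      simp only [cm, Matrix.mul_apply, Fin.sum_univ_two, Matrix.of_apply,
        Matrix.cons_val', Matrix.cons_val_zero, Matrix.cons_val_one, Matrix.cons_val_fin_one]
      simp
    rw [this]
    rw [Monic, leadingCoeff_mul, leadingCoeff_C, ← hβ, inv_mul_cancel₀ hβ0]

theorem uniq_N0 {ψ ψ' : Matrix (Fin 2) (Fin 2) L[X]} (h2 : (2 : L) ≠ 0) {T c : L} (hc : c ≠ 0)
    (hiso : Iso 0 ψ ψ') (h : N0' T c ψ) (h' : N0' T c ψ') : ψ = ψ' := by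
  obtain ⟨g, k, hg, hk, hgk, he⟩ := hiso
  have hkg : k * g = 1 := mul_eq_one_comm.1 hgk
  have hcomm : g * ψ = ψ' * g := by
    rw [← he, Matrix.mul_assoc (g * ψ), hkg, Matrix.mul_one]
  obtain ⟨g1, g2, g3, g4⟩ := hg
  have hC : ∀ {P : L[X]}, P.degree ≤ 0 → P = C (P.coeff 0) := fun h => eq_C_of_degree_le_zero h
  have k1 := hC (by simpa using g1)
  have k2 := hC (P := g 0 1) (by simpa using g2)
  have k3 := hC (P := g 1 0) (by simpa using g3)
  have k4 := hC (P := g 1 1) (by simpa using g4)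
  set α := (g 0 0).coeff 0
  set β := (g 0 1).coeff 0
  set γ := (g 1 0).coeff 0
  set δ := (g 1 1).coeff 0
  obtain ⟨v1, v2, v3, v4, vm⟩ := h
  obtain ⟨v1', v2', v3', v4', vm'⟩ := h'
  have c00 := congrFun (congrFun hcomm 0) 0
  have c01 := congrFun (congrFun hcomm 0) 1
  have c10 := congrFun (congrFun hcomm 1) 0
  have c11 := congrFun (congrFun hcomm 1) 1
  simp only [Matrix.mul_apply, Fin.sum_univ_two, k1, k2, k3, k4] at c00 c01 c10 c11
  have hβ : β = 0 := by
    have := congrArg (Polynomial.eval T) c01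
    simp only [eval_add, eval_mul, eval_C, v1, v2, v3, v4, v1', v2', v3', v4'] at this
    have h3 : (2 * c) * β = 0 := by linear_combination -this
    exact (mul_eq_zero.1 h3).resolve_left (mul_ne_zero h2 hc)
  have hγ : γ = 0 := by
    have := congrArg (Polynomial.eval T) c10
    simp only [eval_add, eval_mul, eval_C, v1, v2, v3, v4, v1', v2', v3', v4'] at this
    have h3 : (2 * c) * γ = 0 := by linear_combination this
    exact (mul_eq_zero.1 h3).resolve_left (mul_ne_zero h2 hc)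
  simp only [hβ, hγ, C_0, zero_mul, mul_zero, add_zero, zero_add] at c00 c01 c10 c11 k2 k3
  have hdet : α * δ ≠ 0 := by
    intro h0
    have h4 := congrFun (congrFun hgk 0) 0
    have h5 := congrFun (congrFun hgk 1) 1
    simp only [Matrix.mul_apply, Fin.sum_univ_two, k1, k2, k3, k4, Matrix.one_apply_eq] at h4 h5
    rcases mul_eq_zero.1 h0 with h6 | h6
    · rw [h6] at h4; simp at h4
    · rw [h6] at h5; simp at h5
  have hα : α ≠ 0 := left_ne_zero_of_mul hdet
  have hδ : δ ≠ 0 := right_ne_zero_of_mul hdet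
  have hαδ : α = δ := by
    have := congrArg Polynomial.leadingCoeff c01
    rw [leadingCoeff_mul, leadingCoeff_mul, leadingCoeff_C, leadingCoeff_C, vm.leadingCoeff,
      vm'.leadingCoeff, mul_one, one_mul] at this
    exact this
  have hCα : (C α : L[X]) ≠ 0 := C_ne_zero.2 hα
  have hCδ : (C δ : L[X]) ≠ 0 := C_ne_zero.2 hδ
  ext1 i j
  fin_cases i <;> fin_cases j
  · exact mul_left_cancel₀ hCα (c00.trans (mul_comm _ _))
  · apply mul_left_cancel₀ hCα
    simp only [Fin.zero_eta, Fin.mk_one]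
    rw [c01, hαδ, mul_comm]
  · apply mul_left_cancel₀ hCδ
    simp only [Fin.zero_eta, Fin.mk_one]
    rw [c10, hαδ, mul_comm]
  · exact mul_left_cancel₀ hCδ (c11.trans (mul_comm _ _))

end Zero

end Pool.Agent.H437.MK
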