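import Pool.Agent.H437.MK.Descent

set_option autoImplicit false

namespace Pool.Agent.H437.MK

open Polynomial Matrix

section One

variable {L : Type*} [Field L]

/-- an upper triangular automorphism of `𝒪(r) ⊕ 𝒪(-r)`. -/
noncomputable def um (a d : L) (Q : L[X]) : Matrix (Fin 2) (Fin 2) L[X] := !![C a, Q; 0, C d]

theorem Bd.um {r : ℕ} (a d : L) {Q : L[X]} (hQ : Q.degree ≤ (2 * r : ℕ)) : Bd r 0 (um a d Q) := by
  refine ⟨?_, ?_, ?_, ?_⟩
  · simp [MK.um, degree_C_le]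
  · simpa [MK.um] using hQ
  · simp [MK.um]
  · simp [MK.um, degree_C_le]

theorem iso_um {r : ℕ} {φ : Matrix (Fin 2) (Fin 2) L[X]} {d : L} {Q : L[X]} (hd : d ≠ 0)
    (hQ : Q.degree ≤ (2 * r : ℕ)) :
    Iso r φ (um 1 d Q * φ * um 1 d⁻¹ (-(C d⁻¹ * Q))) := by
  refine ⟨_, _, Bd.um _ _ hQ, Bd.um _ _ ?_, ?_, rfl⟩
  · rw [degree_neg, degree_C_mul (inv_ne_zero hd)]; exact hQ
  · have h1 : (C d * C d⁻¹ : L[X]) = 1 := by rw [← C_mul, mul_inv_cancel₀ hd, C_1]
    ext1 i j
    fin_cases i <;> fin_cases j <;>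
      simp only [um, Matrix.mul_apply, Fin.sum_univ_two, Fin.zero_eta, Fin.mk_one, Matrix.of_apply,
        Matrix.cons_val', Matrix.cons_val_zero, Matrix.cons_val_one, Matrix.cons_val_fin_one,
        Matrix.one_apply_eq, ne_eq, zero_ne_one, one_ne_zero, not_false_eq_true,
        Matrix.one_apply_ne, C_1, h1]
    all_goals ring

/-- the entries of the conjugate. -/
theorem um_entries {φ : Matrix (Fin 2) (Fin 2) L[X]} {d : L} {Q : L[X]} (hd : d ≠ 0) :
    (um 1 d Q * φ * um 1 d⁻¹ (-(C d⁻¹ * Q))) 1 0 = C d * φ 1 0 ∧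
    (um 1 d Q * φ * um 1 d⁻¹ (-(C d⁻¹ * Q))) 0 0 = φ 0 0 + Q * φ 1 0 := by
  constructor <;>
    simp only [um, Matrix.mul_apply, Fin.sum_univ_two, Fin.zero_eta, Fin.mk_one, Matrix.of_apply,
        Matrix.cons_val', Matrix.cons_val_zero, Matrix.cons_val_one, Matrix.cons_val_fin_one, C_1]
  all_goals ring

/-- the normal form for `r = 1`. -/
def N1 (ψ : Matrix (Fin 2) (Fin 2) L[X]) : Prop :=
  (ψ 1 0).Monic ∧ (((ψ 1 0).natDegree = 1 ∧ ∃ a : L, ψ 0 0 = C a) ∨
    (ψ 1 0 = 1 ∧ ∃ a : L, ψ 0 0 = C a * X ^ 3))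

theorem exists_N1 {u w : Fin 3 → L} {φ : Matrix (Fin 2) (Fin 2) L[X]}
    (h : IsSheaf u w 1 φ) (hsq : ∀ H : L[X], lineF u w ≠ H ^ 2) : ∃ ψ, Iso 1 φ ψ ∧ N1 ψ := by
  obtain ⟨-, -, -, hc⟩ := h.entries hsq
  have hlc : (φ 1 0).leadingCoeff ≠ 0 := leadingCoeff_ne_zero.2 hc
  -- step 1 : make the lower left entry monic
  have hiso1 : Iso 1 φ _ := iso_um (φ := φ) (Q := 0) (inv_ne_zero hlc) (by simp)
  set ψ₁ := um 1 (φ 1 0).leadingCoeff⁻¹ 0 * φ * um 1 (φ 1 0).leadingCoeff⁻¹⁻¹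
    (-(C (φ 1 0).leadingCoeff⁻¹⁻¹ * 0)) with hψ₁
  have hs1 := h.iso hiso1
  have e10 : ψ₁ 1 0 = C (φ 1 0).leadingCoeff⁻¹ * φ 1 0 := (um_entries (inv_ne_zero hlc)).1
  have hm : (ψ₁ 1 0).Monic := by
    rw [e10, Monic, leadingCoeff_mul, leadingCoeff_C, inv_mul_cancel₀ hlc]
  have hdeg : (ψ₁ 1 0).natDegree ≤ 1 := by
    have h3 := hs1.1.2.2.1
    have hne : ψ₁ 1 0 ≠ 0 := hm.ne_zero
    rw [degree_eq_natDegree hne] at h3
    have : (ψ₁ 1 0).natDegree + 2 * 1 ≤ 3 := by exact_mod_cast h3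
    omega
  have hdeg3 : (ψ₁ 0 0).degree ≤ (3 : ℕ) := hs1.1.1
  -- step 2
  have key : ∃ Q : L[X], Q.degree ≤ (2 * 1 : ℕ) ∧
      (((ψ₁ 1 0).natDegree = 1 ∧ ∃ a : L, ψ₁ 0 0 + Q * ψ₁ 1 0 = C a) ∨
        (ψ₁ 1 0 = 1 ∧ ∃ a : L, ψ₁ 0 0 + Q * ψ₁ 1 0 = C a * X ^ 3)) := by
    rcases Nat.lt_or_ge (ψ₁ 1 0).natDegree 1 with h0 | h0
    · have h1 : ψ₁ 1 0 = 1 := hm.natDegree_eq_zero.1 (by omega)
      refine ⟨-(ψ₁ 0 0 - C ((ψ₁ 0 0).coeff 3) * X ^ 3), ?_, Or.inr ⟨h1, (ψ₁ 0 0).coeff 3, ?_⟩⟩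
      · rw [degree_neg]
        apply (degree_le_iff_coeff_zero _ _).2
        intro m hm'
        have hm2 : 2 < m := by
          have : ((2 * 1 : ℕ) : WithBot ℕ) < (m : WithBot ℕ) := hm'
          have := WithBot.coe_lt_coe.1 this
          omega
        rw [coeff_sub, coeff_C_mul, coeff_X_pow]
        rcases Nat.lt_or_ge 3 m with h3 | h3
        · rw [if_neg (by omega), mul_zero, sub_zero]
          exact (degree_le_iff_coeff_zero _ _).1 hdeg3 m (by exact_mod_cast h3)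
        · have : m = 3 := by omega
          subst this
          simp
      · rw [h1]; ring
    · have h1 : (ψ₁ 1 0).natDegree = 1 := by omega
      have h2 : ψ₁ 1 0 = X + C ((ψ₁ 1 0).coeff 0) := by
        conv_lhs => rw [eq_X_add_C_of_natDegree_le_one hdeg]
        have : (ψ₁ 1 0).coeff 1 = 1 := by
          have := hm.coeff_natDegree
          rwa [h1] at this
        rw [this, C_1, one_mul]
      set τ := -(ψ₁ 1 0).coeff 0 with hτ
      have h3 : ψ₁ 1 0 = X - C τ := by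
        rw [h2, hτ, C_neg]; simp
      refine ⟨-(ψ₁ 0 0 /ₘ (X - C τ)), ?_, Or.inl ⟨h1, (ψ₁ 0 0).eval τ, ?_⟩⟩
      · rw [degree_neg]
        rcases eq_or_ne (ψ₁ 0 0 /ₘ (X - C τ)) 0 with h4 | h4
        · rw [h4]; simp
        · have h5 := natDegree_divByMonic (ψ₁ 0 0) (monic_X_sub_C τ)
          rw [natDegree_X_sub_C] at h5
          have h6 : (ψ₁ 0 0).natDegree ≤ 3 := natDegree_le_iff_degree_le.2 hdeg3
          rw [degree_eq_natDegree h4, h5]
          have : (ψ₁ 0 0).natDegree - 1 ≤ 2 * 1 := by omega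
          exact_mod_cast this
      · have h4 := modByMonic_add_div (ψ₁ 0 0) (X - C τ)
        rw [modByMonic_X_sub_C_eq_C_eval] at h4
        rw [h3]
        linear_combination -h4
  obtain ⟨Q, hQ, hQ'⟩ := key
  refine ⟨_, hiso1.trans (iso_um (φ := ψ₁) (d := 1) one_ne_zero hQ), ?_⟩
  have e := um_entries (φ := ψ₁) (Q := Q) (one_ne_zero : (1 : L) ≠ 0)
  rw [C_1, one_mul] at e
  refine ⟨by rw [e.1]; exact hm, ?_⟩
  rw [e.1, e.2]
  exact hQ'

theorem uniq_N1 {u w : Fin 3 → L} {ψ ψ' : Matrix (Fin 2) (Fin 2) L[X]}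
    (hs : IsSheaf u w 1 ψ) (hs' : IsSheaf u w 1 ψ') (hsq : ∀ H : L[X], lineF u w ≠ H ^ 2)
    (hiso : Iso 1 ψ ψ') (h : N1 ψ) (h' : N1 ψ') : ψ = ψ' := by
  obtain ⟨g, k, hg, hk, hgk, he⟩ := hiso
  have hkg : k * g = 1 := mul_eq_one_comm.1 hgk
  have hcomm : g * ψ = ψ' * g := by
    rw [← he, Matrix.mul_assoc (g * ψ), hkg, Matrix.mul_one]
  obtain ⟨g1, g2, g3, g4⟩ := hg
  have hC : ∀ {P : L[X]}, P.degree ≤ 0 → P = C (P.coeff 0) := fun h => eq_C_of_degree_le_zero h
  have k1 := hC (by simpa using g1)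
  have k4 := hC (P := g 1 1) (by simpa using g4)
  have k3 : g 1 0 = 0 := by
    by_contra hne
    rw [degree_eq_natDegree hne] at g3
    have : (g 1 0).natDegree + 2 * 1 ≤ 0 := by exact_mod_cast g3
    omega
  set α := (g 0 0).coeff 0
  set δ := (g 1 1).coeff 0
  have hdet : α * δ ≠ 0 := by
    intro h0
    have h4 := congrFun (congrFun hkg 0) 0
    have h5 := congrFun (congrFun hgk 1) 1
    simp only [Matrix.mul_apply, Fin.sum_univ_two, k1, k3, k4, Matrix.one_apply_eq] at h4 h5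
    rcases mul_eq_zero.1 h0 with h6 | h6
    · rw [h6] at h4; simp at h4
    · rw [h6] at h5; simp at h5
  have hα : α ≠ 0 := left_ne_zero_of_mul hdet
  have hδ : δ ≠ 0 := right_ne_zero_of_mul hdet
  have c00 := congrFun (congrFun hcomm 0) 0
  have c10 := congrFun (congrFun hcomm 1) 0
  simp only [Matrix.mul_apply, Fin.sum_univ_two, k1, k3, k4, zero_mul, mul_zero, add_zero,
    zero_add] at c00 c10
  obtain ⟨hm, hN⟩ := h
  obtain ⟨hm', hN'⟩ := h'
  have hαδ : δ = α := by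
    have := congrArg Polynomial.leadingCoeff c10
    rw [leadingCoeff_mul, leadingCoeff_mul, leadingCoeff_C, leadingCoeff_C, hm.leadingCoeff,
      hm'.leadingCoeff, mul_one, one_mul] at this
    exact this
  have hCα : (C α : L[X]) ≠ 0 := C_ne_zero.2 hα
  have e10 : ψ 1 0 = ψ' 1 0 := by
    apply mul_left_cancel₀ hCα
    rw [← hαδ, c10, hαδ, mul_comm]
  have hg01 : g 0 1 * ψ 1 0 = C α * (ψ' 0 0 - ψ 0 0) := by linear_combination c00
  have e00 : ψ 0 0 = ψ' 0 0 := by
    have hz : g 0 1 = 0 := by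
      by_contra hne
      rcases hN with ⟨h1, a, ha⟩ | ⟨h1, a, ha⟩
      · rcases hN' with ⟨-, a', ha'⟩ | ⟨h1', -⟩
        · rw [ha, ha', ← C_sub, ← C_mul] at hg01
          have h2 := congrArg Polynomial.natDegree hg01
          rw [natDegree_mul hne hm.ne_zero, natDegree_C, h1] at h2
          omega
        · rw [e10, h1', natDegree_one] at h1
          exact absurd h1 (by norm_num)
      · rcases hN' with ⟨h1', -⟩ | ⟨-, a', ha'⟩
        · rw [← e10, h1, natDegree_one] at h1'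
          exact absurd h1' (by norm_num)
        · rw [ha, ha', h1, mul_one] at hg01
          have h2 : g 0 1 = C (α * (a' - a)) * X ^ 3 := by
            rw [hg01, C_mul, C_sub]; ring
          have h3 : α * (a' - a) ≠ 0 := by
            intro h4; rw [h4] at h2; simp at h2; exact hne h2
          rw [h2, degree_C_mul_X_pow 3 h3] at g2
          have : (3 : ℕ) ≤ 0 + 2 * 1 := by exact_mod_cast g2
          omega
    rw [hz, zero_mul] at hg01
    have := (mul_eq_zero.1 hg01.symm).resolve_left hCα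
    exact (sub_eq_zero.1 this).symm
  obtain ⟨f11, f00, -, -⟩ := hs.entries hsq
  obtain ⟨f11', f00', -, -⟩ := hs'.entries hsq
  have e01 : ψ 0 1 = ψ' 0 1 := by
    apply mul_right_cancel₀ hm.ne_zero
    rw [e10]
    rw [e10, e00] at f00
    linear_combination f00 - f00'
  ext1 i j
  fin_cases i <;> fin_cases j
  · exact e00
  · exact e01
  · exact e10
  · simp only [Fin.mk_one]; rw [f11, f11', e00]

end One

section Main

variable {K L : Type*} [Field K] [Field L] [Algebra K L]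

/-- **Descent.** If the double plane has a `K`-point outside of the branch curve over the line, then
the Galois-invariant isomorphism classes on the line contain sheaves defined over `K`. -/
theorem split_of_pt [IsGalois K L] (x : Pt K L) (h2 : (2 : L) ≠ 0)
    (hsq : ∀ H : L[X], lineF (fun i => algebraMap K L (x.u i)) (fun i => algebraMap K L (x.w i)) ≠
      H ^ 2) {T c : K} (hc : c ≠ 0) (hT : f (x.u + T • x.w) = c ^ 2) : x.Split := by
  have hr : x.r < 2 := by
    by_contra hcon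
    obtain ⟨-, -, -, h10⟩ := x.sheaf.entries hsq
    have h3 := x.sheaf.1.2.2.1
    rw [degree_eq_natDegree h10] at h3
    have : (x.φ 1 0).natDegree + 2 * x.r ≤ 3 := by exact_mod_cast h3
    omega
  have hT' : (lineF (fun i => algebraMap K L (x.u i)) (fun i => algebraMap K L (x.w i))).eval
      (algebraMap K L T) = (algebraMap K L c) ^ 2 := by
    rw [← lineF_map (algebraMap K L) x.u x.w, eval_map_algebraMap, aeval_algebraMap_apply,
      coe_aeval_eq_eval, lineF_eval, hT, map_pow]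
  have hc' : algebraMap K L c ≠ 0 := by
    rw [Ne, map_eq_zero]; exact hc
  rcases Nat.lt_or_ge x.r 1 with h0 | h0
  · have hr0 : x.r = 0 := by omega
    have hs := x.sheaf
    rw [hr0] at hs
    refine split_of_normal x (N0' (algebraMap K L T) (algebraMap K L c)) ?_ ?_ ?_
    · rw [hr0]; exact exists_N0 hs hsq h2 hc' hT'
    · rintro σ ψ ⟨v1, v2, v3, v4, v5⟩
      have hev : ∀ i j, ((ψ i j).map (σ : L →+* L)).eval (algebraMap K L T) =
          σ ((ψ i j).eval (algebraMap K L T)) := by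
        intro i j
        have h1 : (σ : L →+* L) (algebraMap K L T) = algebraMap K L T := by simp
        conv_lhs => rw [← h1, eval_map, eval₂_at_apply]
        simp
      refine ⟨?_, ?_, ?_, ?_, ?_⟩
      · rw [Matrix.map_apply, hev, v1]; simp
      · rw [Matrix.map_apply, hev, v2]; simp
      · rw [Matrix.map_apply, hev, v3]; simp
      · rw [Matrix.map_apply, hev, v4]; simp
      · rw [Matrix.map_apply]; exact v5.map _
    · intro ψ ψ' _ _ hiso hN hN'
      rw [hr0] at hiso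
      exact uniq_N0 h2 hc' hiso hN hN'
  · have hr1 : x.r = 1 := by omega
    have hs := x.sheaf
    rw [hr1] at hs
    refine split_of_normal x N1 ?_ ?_ ?_
    · rw [hr1]; exact exists_N1 hs hsq
    · rintro σ ψ ⟨hm, hN⟩
      refine ⟨by rw [Matrix.map_apply]; exact hm.map _, ?_⟩
      rw [Matrix.map_apply, Matrix.map_apply]
      rcases hN with ⟨h1, a, ha⟩ | ⟨h1, a, ha⟩
      · left
        refine ⟨by rw [natDegree_map]; exact h1, σ a, by rw [ha, Polynomial.map_C]; rfl⟩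
      · right
        refine ⟨by rw [h1, Polynomial.map_one], σ a, ?_⟩
        rw [ha, Polynomial.map_mul, Polynomial.map_C, Polynomial.map_pow, Polynomial.map_X]; rfl
    · intro ψ ψ' h1 h2' hiso hN hN'
      rw [hr1] at hiso h1 h2'
      exact uniq_N1 h1 h2' hsq hiso hN hN'

end Main

end Pool.Agent.H437.MK
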