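import Mathlib

/-!
# The sextic `-3 (x² + y² + 3 z²) (x² + 8 y² + 14 z²) (x² + 4 y² + 10 z²)`

No line over a field in which the number `2 · 3 · 5 · 7 · 11 · 13 · 29 · 41` is invertible is
tritangent to the sextic.
-/

set_option autoImplicit false

namespace Pool.Agent.H437.MK

open Polynomial

section Comb

variable {K : Type*} [Field K]

/-- if `(X - a) P` is a square, then `P = (X - a) H₁ ^ 2`. -/
theorem sq_step {a : K} {P H : K[X]} (h : (X - C a) * P = H ^ 2) :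
    ∃ H₁ : K[X], P = (X - C a) * H₁ ^ 2 := by
  have h0 : H.IsRoot a := by
    have := congrArg (Polynomial.eval a) h
    simp only [eval_mul, eval_sub, eval_X, eval_C, sub_self, zero_mul, eval_pow] at this
    exact pow_eq_zero_iff (two_ne_zero) |>.1 this.symm
  obtain ⟨H₁, rfl⟩ := dvd_iff_isRoot.2 h0
  refine ⟨H₁, ?_⟩
  have hx : (X - C a : K[X]) ≠ 0 := X_sub_C_ne_zero a
  apply mul_left_cancel₀ hx
  rw [h]; ring

theorem sq_two {a b : K} {H : K[X]} (h : (X - C a) * (X - C b) = H ^ 2) : a = b := by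
  obtain ⟨H₁, h1⟩ := sq_step h
  have := congrArg (Polynomial.eval a) h1
  simp only [eval_mul, eval_sub, eval_X, eval_C, sub_self, zero_mul] at this
  exact (sub_eq_zero.1 this)

theorem sq_four {a b c d : K} {H : K[X]}
    (h : (X - C a) * ((X - C b) * ((X - C c) * (X - C d))) = H ^ 2) :
    (a = b ∧ c = d) ∨ (a = c ∧ b = d) ∨ (a = d ∧ b = c) := by
  obtain ⟨H₁, h1⟩ := sq_step h
  have h2 := congrArg (Polynomial.eval a) h1
  simp only [eval_mul, eval_sub, eval_X, eval_C, sub_self, zero_mul, mul_eq_zero,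
    sub_eq_zero] at h2
  have hx : (X - C a : K[X]) ≠ 0 := X_sub_C_ne_zero a
  rcases h2 with h2 | h2 | h2
  · subst h2
    left
    refine ⟨rfl, ?_⟩
    have : (X - C c) * (X - C d) = H₁ ^ 2 := by
      apply mul_left_cancel₀ hx
      rw [← h1]
    exact sq_two this
  · subst h2
    right; left
    refine ⟨rfl, ?_⟩
    have : (X - C b) * (X - C d) = H₁ ^ 2 := by
      apply mul_left_cancel₀ hx
      rw [← h1]; ring
    exact sq_two this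
  · subst h2
    right; right
    refine ⟨rfl, ?_⟩
    have : (X - C b) * (X - C c) = H₁ ^ 2 := by
      apply mul_left_cancel₀ hx
      rw [← h1]; ring
    exact sq_two this

/-- the possible coincidences among the six roots of three quadratic polynomials whose product
is a square. -/
theorem sq_six {a₁ b₁ a₂ b₂ a₃ b₃ : K} {H : K[X]}
    (h : (X - C a₁) * ((X - C b₁) * ((X - C a₂) * ((X - C b₂) * ((X - C a₃) * (X - C b₃))))) =
      H ^ 2) :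
    (a₁ = b₁ ∧ a₂ = b₂ ∧ a₃ = b₃) ∨
    (((a₁ = a₂ ∧ b₁ = b₂) ∨ (a₁ = b₂ ∧ b₁ = a₂)) ∧ a₃ = b₃) ∨
    (((a₁ = a₃ ∧ b₁ = b₃) ∨ (a₁ = b₃ ∧ b₁ = a₃)) ∧ a₂ = b₂) ∨
    (((a₂ = a₃ ∧ b₂ = b₃) ∨ (a₂ = b₃ ∧ b₂ = a₃)) ∧ a₁ = b₁) ∨
    ((∃ r, (r = a₁ ∨ r = b₁) ∧ (r = a₂ ∨ r = b₂)) ∧
     (∃ r, (r = a₁ ∨ r = b₁) ∧ (r = a₃ ∨ r = b₃)) ∧
     (∃ r, (r = a₂ ∨ r = b₂) ∧ (r = a₃ ∨ r = b₃))) := by
  obtain ⟨H₁, h1⟩ := sq_step h
  have h2 := congrArg (Polynomial.eval a₁) h1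
  simp only [eval_mul, eval_sub, eval_X, eval_C, sub_self, zero_mul, mul_eq_zero,
    sub_eq_zero] at h2
  have hx : (X - C a₁ : K[X]) ≠ 0 := X_sub_C_ne_zero a₁
  rcases h2 with h2 | h2 | h2 | h2 | h2
  · subst h2
    have h3 : (X - C a₂) * ((X - C b₂) * ((X - C a₃) * (X - C b₃))) = H₁ ^ 2 := by
      apply mul_left_cancel₀ hx
      rw [← h1]
    rcases sq_four h3 with ⟨h4, h5⟩ | ⟨h4, h5⟩ | ⟨h4, h5⟩
    · exact Or.inl ⟨rfl, h4, h5⟩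
    · exact Or.inr (Or.inr (Or.inr (Or.inl ⟨Or.inl ⟨h4, h5⟩, rfl⟩)))
    · exact Or.inr (Or.inr (Or.inr (Or.inl ⟨Or.inr ⟨h4, h5⟩, rfl⟩)))
  · subst h2
    have h3 : (X - C b₁) * ((X - C b₂) * ((X - C a₃) * (X - C b₃))) = H₁ ^ 2 := by
      apply mul_left_cancel₀ hx
      rw [← h1]; ring
    rcases sq_four h3 with ⟨h4, h5⟩ | ⟨h4, h5⟩ | ⟨h4, h5⟩
    · exact Or.inr (Or.inl ⟨Or.inl ⟨rfl, h4⟩, h5⟩)
    · refine Or.inr (Or.inr (Or.inr (Or.inr ⟨⟨a₁, Or.inl rfl, Or.inl rfl⟩,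
        ⟨b₁, Or.inr rfl, Or.inl h4⟩, ⟨b₂, Or.inr rfl, Or.inr h5⟩⟩)))
    · refine Or.inr (Or.inr (Or.inr (Or.inr ⟨⟨a₁, Or.inl rfl, Or.inl rfl⟩,
        ⟨b₁, Or.inr rfl, Or.inr h4⟩, ⟨b₂, Or.inr rfl, Or.inl h5⟩⟩)))
  · subst h2
    have h3 : (X - C b₁) * ((X - C a₂) * ((X - C a₃) * (X - C b₃))) = H₁ ^ 2 := by
      apply mul_left_cancel₀ hx
      rw [← h1]; ring
    rcases sq_four h3 with ⟨h4, h5⟩ | ⟨h4, h5⟩ | ⟨h4, h5⟩
    · exact Or.inr (Or.inl ⟨Or.inr ⟨rfl, h4⟩, h5⟩)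
    · refine Or.inr (Or.inr (Or.inr (Or.inr ⟨⟨a₁, Or.inl rfl, Or.inr rfl⟩,
        ⟨b₁, Or.inr rfl, Or.inl h4⟩, ⟨a₂, Or.inl rfl, Or.inr h5⟩⟩)))
    · refine Or.inr (Or.inr (Or.inr (Or.inr ⟨⟨a₁, Or.inl rfl, Or.inr rfl⟩,
        ⟨b₁, Or.inr rfl, Or.inr h4⟩, ⟨a₂, Or.inl rfl, Or.inl h5⟩⟩)))
  · subst h2
    have h3 : (X - C b₁) * ((X - C a₂) * ((X - C b₂) * (X - C b₃))) = H₁ ^ 2 := by
      apply mul_left_cancel₀ hx
      rw [← h1]; ring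
    rcases sq_four h3 with ⟨h4, h5⟩ | ⟨h4, h5⟩ | ⟨h4, h5⟩
    · refine Or.inr (Or.inr (Or.inr (Or.inr ⟨⟨b₁, Or.inr rfl, Or.inl h4⟩,
        ⟨a₁, Or.inl rfl, Or.inl rfl⟩, ⟨b₂, Or.inr rfl, Or.inr h5⟩⟩)))
    · refine Or.inr (Or.inr (Or.inr (Or.inr ⟨⟨b₁, Or.inr rfl, Or.inr h4⟩,
        ⟨a₁, Or.inl rfl, Or.inl rfl⟩, ⟨a₂, Or.inl rfl, Or.inr h5⟩⟩)))
    · exact Or.inr (Or.inr (Or.inl ⟨Or.inl ⟨rfl, h4⟩, h5⟩))
  · subst h2
    have h3 : (X - C b₁) * ((X - C a₂) * ((X - C b₂) * (X - C a₃))) = H₁ ^ 2 := by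
      apply mul_left_cancel₀ hx
      rw [← h1]; ring
    rcases sq_four h3 with ⟨h4, h5⟩ | ⟨h4, h5⟩ | ⟨h4, h5⟩
    · refine Or.inr (Or.inr (Or.inr (Or.inr ⟨⟨b₁, Or.inr rfl, Or.inl h4⟩,
        ⟨a₁, Or.inl rfl, Or.inr rfl⟩, ⟨b₂, Or.inr rfl, Or.inl h5⟩⟩)))
    · refine Or.inr (Or.inr (Or.inr (Or.inr ⟨⟨b₁, Or.inr rfl, Or.inr h4⟩,
        ⟨a₁, Or.inl rfl, Or.inr rfl⟩, ⟨a₂, Or.inl rfl, Or.inl h5⟩⟩)))
    · exact Or.inr (Or.inr (Or.inl ⟨Or.inr ⟨rfl, h4⟩, h5⟩))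

end Comb

section Geom

variable {K : Type*} [Field K]

/-- the diagonal ternary quadratic form with coefficients `x`. -/
def qf {R : Type*} [CommRing R] (x v : Fin 3 → R) : R :=
  x 0 * v 0 ^ 2 + x 1 * v 1 ^ 2 + x 2 * v 2 ^ 2

/-- its polar form. -/
def bf {R : Type*} [CommRing R] (x u w : Fin 3 → R) : R :=
  x 0 * u 0 * w 0 + x 1 * u 1 * w 1 + x 2 * u 2 * w 2

/-- the dual form evaluated at the squares `N`. -/
def ef {R : Type*} [CommRing R] (x N : Fin 3 → R) : R :=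
  x 1 * x 2 * N 0 + x 2 * x 0 * N 1 + x 0 * x 1 * N 2

/-- the cross product. -/
def cr {R : Type*} [CommRing R] (u w : Fin 3 → R) : Fin 3 → R :=
  ![u 1 * w 2 - u 2 * w 1, u 2 * w 0 - u 0 * w 2, u 0 * w 1 - u 1 * w 0]

/-- the form whose vanishing at the squares `N` says that the line passes through one of the four
points with `v_i² = R_i`. -/
def sf {R : Type*} [CommRing R] (r N : Fin 3 → R) : R :=
  (r 0 * N 0) ^ 2 + (r 1 * N 1) ^ 2 + (r 2 * N 2) ^ 2 - 2 * (r 0 * N 0) * (r 1 * N 1)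
    - 2 * (r 1 * N 1) * (r 2 * N 2) - 2 * (r 2 * N 2) * (r 0 * N 0)

/-- the squares of the coordinates. -/
def sqv {R : Type*} [CommRing R] (n : Fin 3 → R) : Fin 3 → R := fun i => n i ^ 2

theorem qf_add {R : Type*} [CommRing R] (x u w : Fin 3 → R) (s t : R) :
    qf x (s • u + t • w) = s ^ 2 * qf x u + 2 * (s * t) * bf x u w + t ^ 2 * qf x w := by
  simp only [qf, bf, Pi.add_apply, Pi.smul_apply, smul_eq_mul]; ring

theorem gram {R : Type*} [CommRing R] (x u w : Fin 3 → R) :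
    qf x u * qf x w - bf x u w ^ 2 = ef x (sqv (cr u w)) := by
  simp [qf, bf, ef, sqv, cr]; ring

/-- a diagonal form which vanishes on a plane. -/
theorem vanish_rel {R : Type*} [CommRing R] (d u w : Fin 3 → R) (h : qf d u = 0) (h' : bf d u w = 0)
    (h'' : qf d w = 0) :
    d 0 * sqv (cr u w) 1 + d 1 * sqv (cr u w) 0 = 0 ∧
    d 0 * sqv (cr u w) 2 + d 2 * sqv (cr u w) 0 = 0 ∧
    d 1 * sqv (cr u w) 2 + d 2 * sqv (cr u w) 1 = 0 := by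
  have key : ∀ s t : R, qf d (s • u + t • w) = 0 := by
    intro s t; rw [qf_add, h, h', h'']; ring
  have k0 := key (w 0) (-u 0)
  have k1 := key (w 1) (-u 1)
  have k2 := key (w 2) (-u 2)
  simp only [qf, Pi.add_apply, Pi.smul_apply, smul_eq_mul, sqv, cr, Matrix.cons_val_zero,
    Matrix.cons_val_one, Matrix.cons_val_two, Matrix.head_cons, Matrix.tail_cons] at *
  refine ⟨?_, ?_, ?_⟩
  · linear_combination k2
  · linear_combination k1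
  · linear_combination k0

end Geom

end Pool.Agent.H437.MK
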