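import Pool.Agent.H437.MK.Cases

set_option autoImplicit false

namespace Pool.Agent.H437.MK

open Polynomial

/-- the sextic form `-3 (x² + y² + 3 z²) (x² + 8 y² + 14 z²) (x² + 4 y² + 10 z²)`. -/
def f {R : Type*} [CommRing R] (v : Fin 3 → R) : R :=
  -3 * ((v 0 ^ 2 + v 1 ^ 2 + 3 * v 2 ^ 2) * (v 0 ^ 2 + 8 * v 1 ^ 2 + 14 * v 2 ^ 2) *
    (v 0 ^ 2 + 4 * v 1 ^ 2 + 10 * v 2 ^ 2))

section

variable {K : Type*} [Field K]

theorem f_eq (v : Fin 3 → K) : f v = -3 * (qf x1 v * qf x2 v * qf x3 v) := by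
  simp [f, qf, x1, x2, x3]

theorem good_cond1 (hK : Good K) : Bcond (x1 : Fin 3 → K) x2 x3 := by
  obtain ⟨h2, h3, h5, h7, h11, h13, h29, h41⟩ := hK
  simp only [Bcond, x1, x2, x3, Matrix.cons_val_zero, Matrix.cons_val_one, Matrix.cons_val_two,
    Matrix.head_cons, Matrix.tail_cons]
  refine ⟨⟨?_, ?_, ?_⟩, ⟨?_, ?_, ?_⟩, ?_, ?_, ?_⟩
  · norm_num
  · rw [show (4 : K) = 2 * 2 by norm_num]; exact mul_ne_zero h2 h2
  · rw [show (10 : K) = 2 * 5 by norm_num]; exact mul_ne_zero h2 h5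
  · rw [show (1 * 8 - 1 * 1 : K) = 7 by norm_num]; exact h7
  · rw [show (1 * 1 - 1 * 8 : K) = -7 by norm_num]; exact neg_ne_zero.2 h7
  · rw [show (3 * 1 - 1 * 14 : K) = -11 by norm_num]; exact neg_ne_zero.2 h11
  · rw [show ((1 * 3 - 1 * 14) * 4 - (1 * 1 - 1 * 8) * 10 : K) = 2 * 13 by norm_num]
    exact mul_ne_zero h2 h13
  · rw [show ((8 * 3 - 1 * 14) * 1 - (8 * 1 - 1 * 1) * 10 : K) = -(2 * 2 * 3 * 5) by norm_num]
    exact neg_ne_zero.2 (mul_ne_zero (mul_ne_zero (mul_ne_zero h2 h2) h3) h5)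
  · rw [show ((14 * 1 - 3 * 8) * 1 - (14 * 1 - 3 * 1) * 4 : K) = -(2 * 3 * 3 * 3) by norm_num]
    exact neg_ne_zero.2 (mul_ne_zero (mul_ne_zero (mul_ne_zero h2 h3) h3) h3)

theorem good_cond2 (hK : Good K) : Bcond (x1 : Fin 3 → K) x3 x2 := by
  obtain ⟨h2, h3, h5, h7, h11, h13, h29, h41⟩ := hK
  simp only [Bcond, x1, x2, x3, Matrix.cons_val_zero, Matrix.cons_val_one, Matrix.cons_val_two,
    Matrix.head_cons, Matrix.tail_cons]
  refine ⟨⟨?_, ?_, ?_⟩, ⟨?_, ?_, ?_⟩, ?_, ?_, ?_⟩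
  · norm_num
  · rw [show (8 : K) = 2 * 2 * 2 by norm_num]; exact mul_ne_zero (mul_ne_zero h2 h2) h2
  · rw [show (14 : K) = 2 * 7 by norm_num]; exact mul_ne_zero h2 h7
  · rw [show (1 * 4 - 1 * 1 : K) = 3 by norm_num]; exact h3
  · rw [show (1 * 1 - 1 * 4 : K) = -3 by norm_num]; exact neg_ne_zero.2 h3
  · rw [show (3 * 1 - 1 * 10 : K) = -7 by norm_num]; exact neg_ne_zero.2 h7
  · rw [show ((1 * 3 - 1 * 10) * 8 - (1 * 1 - 1 * 4) * 14 : K) = -(2 * 7) by norm_num]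
    exact neg_ne_zero.2 (mul_ne_zero h2 h7)
  · rw [show ((4 * 3 - 1 * 10) * 1 - (4 * 1 - 1 * 1) * 14 : K) = -(2 * 2 * 2 * 5) by norm_num]
    exact neg_ne_zero.2 (mul_ne_zero (mul_ne_zero (mul_ne_zero h2 h2) h2) h5)
  · rw [show ((10 * 1 - 3 * 4) * 1 - (10 * 1 - 3 * 1) * 8 : K) = -(2 * 29) by norm_num]
    exact neg_ne_zero.2 (mul_ne_zero h2 h29)

theorem good_cond3 (hK : Good K) : Bcond (x2 : Fin 3 → K) x3 x1 := by
  obtain ⟨h2, h3, h5, h7, h11, h13, h29, h41⟩ := hK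
  simp only [Bcond, x1, x2, x3, Matrix.cons_val_zero, Matrix.cons_val_one, Matrix.cons_val_two,
    Matrix.head_cons, Matrix.tail_cons]
  refine ⟨⟨?_, ?_, ?_⟩, ⟨?_, ?_, ?_⟩, ?_, ?_, ?_⟩
  · norm_num
  · norm_num
  · exact h3
  · rw [show (1 * 4 - 8 * 1 : K) = -(2 * 2) by norm_num]; exact neg_ne_zero.2 (mul_ne_zero h2 h2)
  · rw [show (8 * 1 - 1 * 4 : K) = 2 * 2 by norm_num]; exact mul_ne_zero h2 h2
  · rw [show (14 * 1 - 1 * 10 : K) = 2 * 2 by norm_num]; exact mul_ne_zero h2 h2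
  · rw [show ((1 * 14 - 1 * 10) * 1 - (1 * 8 - 1 * 4) * 3 : K) = -(2 * 2 * 2) by norm_num]
    exact neg_ne_zero.2 (mul_ne_zero (mul_ne_zero h2 h2) h2)
  · rw [show ((4 * 14 - 8 * 10) * 1 - (4 * 1 - 8 * 1) * 3 : K) = -(2 * 2 * 3) by norm_num]
    exact neg_ne_zero.2 (mul_ne_zero (mul_ne_zero h2 h2) h3)
  · rw [show ((10 * 8 - 14 * 4) * 1 - (10 * 1 - 14 * 1) * 1 : K) = 2 * 2 * 7 by norm_num]
    exact mul_ne_zero (mul_ne_zero h2 h2) h7

theorem quad_split [IsAlgClosed K] {a : K} (ha : a ≠ 0) (b c : K) :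
    ∃ α β : K, 2 * b = -a * (α + β) ∧ c = a * (α * β) := by
  obtain ⟨d, hd⟩ := IsAlgClosed.exists_pow_nat_eq (b ^ 2 - a * c) (n := 2) (by norm_num)
  refine ⟨(-b + d) / a, (-b - d) / a, ?_, ?_⟩
  · field_simp; ring
  · field_simp; linear_combination hd

theorem ef_zero {x u w : Fin 3 → K} (h2 : (2 : K) ≠ 0) {α β : K}
    (h1 : 2 * bf x u w = -qf x w * (α + β)) (h3 : qf x u = qf x w * (α * β)) (h : α = β) :
    ef x (sqv (cr u w)) = 0 := by
  subst h
  have h4 : bf x u w = -qf x w * α := by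
    have : (2 : K) * (bf x u w + qf x w * α) = 0 := by linear_combination h1
    linear_combination (mul_eq_zero.1 this).resolve_left h2
  rw [← gram, h3, h4]; ring

theorem share_zero {x y z u w : Fin 3 → K} (h2 : (2 : K) ≠ 0) {α β α' β' : K}
    (hn : cr u w ≠ 0)
    (hx : qf x w ≠ 0)
    (h1 : 2 * bf x u w = -qf x w * (α + β)) (h3 : qf x u = qf x w * (α * β))
    (h1' : 2 * bf y u w = -qf y w * (α' + β')) (h3' : qf y u = qf y w * (α' * β'))
    (h : (α = α' ∧ β = β') ∨ (α = β' ∧ β = α')) (hB : Bcond x y z)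
    (hE : ef z (sqv (cr u w)) = 0) : False := by
  have hs : α + β = α' + β' := by rcases h with ⟨rfl, rfl⟩ | ⟨rfl, rfl⟩ <;> ring
  have hp : α * β = α' * β' := by rcases h with ⟨rfl, rfl⟩ | ⟨rfl, rfl⟩ <;> ring
  have hd : ∀ v v' : Fin 3 → K, bf (fun m => qf y w * x m - qf x w * y m) v v' =
      qf y w * bf x v v' - qf x w * bf y v v' := by intro v v'; simp only [bf]; ring
  have hd' : ∀ v : Fin 3 → K, qf (fun m => qf y w * x m - qf x w * y m) v =
      qf y w * qf x v - qf x w * qf y v := by intro v; simp only [qf]; ring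
  obtain ⟨r01, r02, r12⟩ := vanish_rel (fun m => qf y w * x m - qf x w * y m) u w
    (by rw [hd', h3, h3', hp]; ring)
    (by
      rw [hd]
      have : (2 : K) * (qf y w * bf x u w - qf x w * bf y u w) = 0 := by
        linear_combination qf y w * h1 - qf x w * h1' - qf x w * qf y w * hs
      exact (mul_eq_zero.1 this).resolve_left h2)
    (by rw [hd']; ring)
  have := caseB h2 hx hB r01 r02 r12 hE
  apply hn
  funext i
  have h4 := congrFun this i
  simp only [sqv, Pi.zero_apply] at h4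
  simpa using h4

theorem cr_perp {R : Type*} [CommRing R] (u w : Fin 3 → R) (r : R) :
    cr u w 0 * (u + r • w) 0 + cr u w 1 * (u + r • w) 1 + cr u w 2 * (u + r • w) 2 = 0 := by
  simp [cr]; ring

theorem common_zero {x y u w : Fin 3 → K} {α β α' β' : K}
    (hn : cr u w ≠ 0)
    (h1 : 2 * bf x u w = -qf x w * (α + β)) (h3 : qf x u = qf x w * (α * β))
    (h1' : 2 * bf y u w = -qf y w * (α' + β')) (h3' : qf y u = qf y w * (α' * β'))
    (h : ∃ r, (r = α ∨ r = β) ∧ (r = α' ∨ r = β'))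
    (hR : cr x y 0 ≠ 0 ∧ cr x y 1 ≠ 0 ∧ cr x y 2 ≠ 0) :
    sf (cr x y) (sqv (cr u w)) = 0 := by
  obtain ⟨r, hr, hr'⟩ := h
  have e : ∀ z : Fin 3 → K, qf z (u + r • w) = qf z u + r * (2 * bf z u w) + r ^ 2 * qf z w := by
    intro z
    have := qf_add z u w 1 r
    rw [one_smul] at this
    rw [this]; ring
  apply caseC_pt (v := u + r • w) (n := cr u w) _ _ _ (cr_perp u w r) hR
  · rw [e, h1, h3]; rcases hr with rfl | rfl <;> ring
  · rw [e, h1', h3']; rcases hr' with rfl | rfl <;> ring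
  · intro h0
    apply hn
    have h4 : ∀ i, u i = - (r * w i) := by
      intro i
      have := congrFun h0 i
      simp only [Pi.add_apply, Pi.smul_apply, smul_eq_mul, Pi.zero_apply] at this
      linear_combination this
    funext i
    fin_cases i <;> simp [cr, h4] <;> ring

/-- **No line is tritangent to the sextic.** -/
theorem nosq [IsAlgClosed K] (hK : Good K) {u w : Fin 3 → K} (hn : cr u w ≠ 0) (hw : f w ≠ 0)
    (H : K[X]) (hH : ∀ T : K, f (u + T • w) = (H.eval T) ^ 2) : False := by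
  have h2 := hK.h2
  have hw' := hw
  rw [f_eq] at hw'
  have hneg3 : (-3 : K) ≠ 0 := neg_ne_zero.2 hK.h3
  have ha1 : qf x1 w ≠ 0 := by rintro h; apply hw'; rw [h]; ring
  have ha2 : qf x2 w ≠ 0 := by rintro h; apply hw'; rw [h]; ring
  have ha3 : qf x3 w ≠ 0 := by rintro h; apply hw'; rw [h]; ring
  obtain ⟨α1, β1, s1, p1⟩ := quad_split ha1 (bf x1 u w) (qf x1 u)
  obtain ⟨α2, β2, s2, p2⟩ := quad_split ha2 (bf x2 u w) (qf x2 u)
  obtain ⟨α3, β3, s3, p3⟩ := quad_split ha3 (bf x3 u w) (qf x3 u)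
  obtain ⟨c, hc⟩ := IsAlgClosed.exists_pow_nat_eq (-3 * (qf x1 w * qf x2 w * qf x3 w)) (n := 2)
    (by norm_num)
  have hc0 : c ≠ 0 := by
    rintro rfl
    rw [zero_pow two_ne_zero] at hc
    exact mul_ne_zero hneg3 (mul_ne_zero (mul_ne_zero ha1 ha2) ha3) hc.symm
  have e : ∀ (z : Fin 3 → K) (T : K),
      qf z (u + T • w) = qf z u + T * (2 * bf z u w) + T ^ 2 * qf z w := by
    intro z T
    have := qf_add z u w 1 T
    rw [one_smul] at this
    rw [this]; ring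
  have : Infinite K := IsAlgClosed.instInfinite
  have hpoly : C (c ^ 2) * ((X - C α1) * ((X - C β1) * ((X - C α2) * ((X - C β2) *
      ((X - C α3) * (X - C β3)))))) = H ^ 2 := by
    apply Polynomial.funext
    intro T
    rw [eval_pow, ← hH T, f_eq, e, e, e, s1, s2, s3, p1, p2, p3, hc]
    simp only [eval_mul, eval_sub, eval_X, eval_C]
    ring
  have hpoly' : ((X - C α1) * ((X - C β1) * ((X - C α2) * ((X - C β2) *
      ((X - C α3) * (X - C β3)))))) = (C c⁻¹ * H) ^ 2 := by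
    have h1 : c⁻¹ ^ 2 * c ^ 2 = 1 := by field_simp
    rw [mul_pow, ← hpoly, ← C_pow, ← mul_assoc (C (c⁻¹ ^ 2)) (C (c ^ 2)), ← C_mul, h1, C_1,
      one_mul]
  have hN : sqv (cr u w) ≠ 0 := by
    intro h
    apply hn
    funext i
    have h4 := congrFun h i
    simp only [sqv, Pi.zero_apply] at h4
    simpa using h4
  rcases sq_six hpoly' with ⟨h1, h2', h3⟩ | ⟨h1, h3⟩ | ⟨h1, h3⟩ | ⟨h1, h3⟩ | ⟨h12, h13, h23⟩
  · exact hN (caseA hK (ef_zero h2 s1 p1 h1) (ef_zero h2 s2 p2 h2') (ef_zero h2 s3 p3 h3))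
  · exact share_zero h2 hn ha1 s1 p1 s2 p2 h1 (good_cond1 hK) (ef_zero h2 s3 p3 h3)
  · exact share_zero h2 hn ha1 s1 p1 s3 p3 h1 (good_cond2 hK) (ef_zero h2 s2 p2 h3)
  · exact share_zero h2 hn ha2 s2 p2 s3 p3 h1 (good_cond3 hK) (ef_zero h2 s1 p1 h3)
  · have h4 : (4 : K) ≠ 0 := by
      rw [show (4 : K) = 2 * 2 by norm_num]; exact mul_ne_zero h2 h2
    have hs23 := common_zero hn s2 p2 s3 p3 h23 (by
      refine ⟨?_, ?_, ?_⟩ <;> simp only [cr, x2, x3, Matrix.cons_val_zero, Matrix.cons_val_one,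
        Matrix.cons_val_two, Matrix.head_cons, Matrix.tail_cons]
      · rw [show (8 * 10 - 14 * 4 : K) = 2 * 2 * 2 * 3 by norm_num]
        exact mul_ne_zero (mul_ne_zero (mul_ne_zero h2 h2) h2) hK.h3
      · rw [show (14 * 1 - 1 * 10 : K) = 2 * 2 by norm_num]; exact mul_ne_zero h2 h2
      · rw [show (1 * 4 - 8 * 1 : K) = -(2 * 2) by norm_num]
        exact neg_ne_zero.2 (mul_ne_zero h2 h2))
    have hs13 := common_zero hn s1 p1 s3 p3 h13 (by
      refine ⟨?_, ?_, ?_⟩ <;> simp only [cr, x1, x3, Matrix.cons_val_zero, Matrix.cons_val_one,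
        Matrix.cons_val_two, Matrix.head_cons, Matrix.tail_cons]
      · rw [show (1 * 10 - 3 * 4 : K) = -2 by norm_num]
        exact neg_ne_zero.2 h2
      · rw [show (3 * 1 - 1 * 10 : K) = -7 by norm_num]; exact neg_ne_zero.2 hK.h7
      · rw [show (1 * 4 - 1 * 1 : K) = 3 by norm_num]
        exact hK.h3)
    have hs12 := common_zero hn s1 p1 s2 p2 h12 (by
      refine ⟨?_, ?_, ?_⟩ <;> simp only [cr, x1, x2, Matrix.cons_val_zero, Matrix.cons_val_one,
        Matrix.cons_val_two, Matrix.head_cons, Matrix.tail_cons]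
      · rw [show (1 * 14 - 3 * 8 : K) = -(2 * 5) by norm_num]
        exact neg_ne_zero.2 (mul_ne_zero h2 hK.h5)
      · rw [show (3 * 1 - 1 * 14 : K) = -11 by norm_num]; exact neg_ne_zero.2 hK.h11
      · rw [show (1 * 8 - 1 * 1 : K) = 7 by norm_num]
        exact hK.h7)
    have h16 : (16 : K) ≠ 0 := by
      rw [show (16 : K) = 4 * 4 by norm_num]; exact mul_ne_zero h4 h4
    refine hN (caseC hK (N := sqv (cr u w)) ?_ ?_ ?_)
    · have : (16 : K) * sf ![6, 1, -1] (sqv (cr u w)) = 0 := by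
        rw [← hs23]
        simp only [sf, cr, x2, x3, Matrix.cons_val_zero, Matrix.cons_val_one,
          Matrix.cons_val_two, Matrix.head_cons, Matrix.tail_cons]
        ring
      exact (mul_eq_zero.1 this).resolve_left h16
    · rw [← hs13]
      simp only [sf, cr, x1, x3, Matrix.cons_val_zero, Matrix.cons_val_one,
        Matrix.cons_val_two, Matrix.head_cons, Matrix.tail_cons]
      ring
    · rw [← hs12]
      simp only [sf, cr, x1, x2, Matrix.cons_val_zero, Matrix.cons_val_one,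
        Matrix.cons_val_two, Matrix.head_cons, Matrix.tail_cons]
      ring

end

end Pool.Agent.H437.MK
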