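import Pool.Agent.H437.MK.PadicPart

set_option autoImplicit false

namespace Pool.Agent.H437.MK

/-- the coefficients of the three conics whose union is the branch curve. -/
def coef : Fin 3 → Fin 3 → ℤ := ![![1, 1, 3], ![1, 8, 14], ![1, 4, 10]]

/-- the `i`-th conic. -/
def conic {R : Type*} [CommRing R] (i : Fin 3) (v : Fin 3 → R) : R :=
  ∑ m, (coef i m : R) * v m ^ 2

theorem f_eq_conic {R : Type*} [CommRing R] (v : Fin 3 → R) :
    f v = -3 * (conic 0 v * conic 1 v * conic 2 v) := by
  simp [f, conic, coef, Fin.sum_univ_three]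

section

variable {L : Type*} [Field L] [CharZero L]

theorem two_conics {x y z v : Fin 3 → L} (hx : qf x v = 0) (hy : qf y v = 0) (hv : v ≠ 0)
    (hR : cr x y 0 ≠ 0 ∧ cr x y 1 ≠ 0 ∧ cr x y 2 ≠ 0)
    (hdet : z 0 * cr x y 0 + z 1 * cr x y 1 + z 2 * cr x y 2 ≠ 0) :
    qf z v ≠ 0 ∧ cr (fun m => x m * v m) (fun m => y m * v m) ≠ 0 := by
  obtain ⟨h0, h1, h2⟩ := hR
  simp only [qf] at hx hy
  have e01 : cr x y 0 * v 1 ^ 2 = cr x y 1 * v 0 ^ 2 := by
    simp [cr]; linear_combination (y 2) * hx - x 2 * hy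
  have e02 : cr x y 0 * v 2 ^ 2 = cr x y 2 * v 0 ^ 2 := by
    simp [cr]; linear_combination (-y 1) * hx + x 1 * hy
  have hv0 : v 0 ≠ 0 := by
    intro h
    rw [h] at e01 e02
    apply hv
    funext i
    fin_cases i
    · exact h
    · have : cr x y 0 * v 1 ^ 2 = 0 := by rw [e01]; ring
      exact pow_eq_zero_iff two_ne_zero |>.1 ((mul_eq_zero.1 this).resolve_left h0)
    · have : cr x y 0 * v 2 ^ 2 = 0 := by rw [e02]; ring
      exact pow_eq_zero_iff two_ne_zero |>.1 ((mul_eq_zero.1 this).resolve_left h0)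
  have hv1 : v 1 ≠ 0 := by
    intro h
    rw [h] at e01
    have : cr x y 1 * v 0 ^ 2 = 0 := by rw [← e01]; ring
    exact hv0 (pow_eq_zero_iff two_ne_zero |>.1 ((mul_eq_zero.1 this).resolve_left h1))
  constructor
  · intro h
    simp only [qf] at h
    have : (z 0 * cr x y 0 + z 1 * cr x y 1 + z 2 * cr x y 2) * v 0 ^ 2 = 0 := by
      linear_combination cr x y 0 * h - z 1 * e01 - z 2 * e02
    exact (mul_ne_zero hdet (pow_ne_zero 2 hv0)) this
  · intro h
    have h3 := congrFun h 2
    have h4 : cr x y 2 * (v 0 * v 1) = 0 := by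
      have h3' : x 0 * v 0 * (y 1 * v 1) - x 1 * v 1 * (y 0 * v 0) = 0 := h3
      have h5 : cr x y 2 = x 0 * y 1 - x 1 * y 0 := rfl
      rw [h5]; linear_combination h3'
    exact (mul_ne_zero h2 (mul_ne_zero hv0 hv1)) h4

theorem indep_of_cr {u w : Fin 3 → L} (h : cr u w ≠ 0) : LinearIndependent L ![u, w] := by
  rw [LinearIndependent.pair_iff]
  intro s t hst
  have h0 : ∀ i, s * u i + t * w i = 0 := by
    intro i
    have := congrFun hst i
    simpa using this
  by_contra hcon
  apply h
  have key : ∀ i j, s * (u i * w j - u j * w i) = 0 ∧ t * (u i * w j - u j * w i) = 0 := by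
    intro i j
    constructor
    · linear_combination w j * h0 i - w i * h0 j
    · linear_combination (-u j) * h0 i + u i * h0 j
  have key' : ∀ i j, u i * w j - u j * w i = 0 := by
    intro i j
    by_contra hne
    apply hcon
    exact ⟨(mul_eq_zero.1 (key i j).1).resolve_right hne,
      (mul_eq_zero.1 (key i j).2).resolve_right hne⟩
  funext i
  fin_cases i
  · simpa [cr] using key' 1 2
  · simpa [cr] using key' 2 0
  · simpa [cr] using key' 0 1

theorem conic_qf (v : Fin 3 → L) : conic 0 v = qf x1 v ∧ conic 1 v = qf x2 v ∧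
    conic 2 v = qf x3 v := by
  refine ⟨?_, ?_, ?_⟩ <;> simp [conic, qf, x1, x2, x3, coef, Fin.sum_univ_three]

/-- **The singular points of the branch curve are ordinary double points.** -/
theorem nodes {v : Fin 3 → L} (hv : v ≠ 0) {i j : Fin 3} (hij : i ≠ j) (hi : conic i v = 0)
    (hj : conic j v = 0) :
    (∀ k, k ≠ i → k ≠ j → conic k v ≠ 0) ∧
      LinearIndependent L ![fun m => (coef i m : L) * v m, fun m => (coef j m : L) * v m] := by
  obtain ⟨c0, c1, c2⟩ := conic_qf (L := L) v
  have g0 : (fun m => (coef 0 m : L) * v m) = fun m => x1 m * v m := by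
    funext m; fin_cases m <;> simp [coef, x1]
  have g1 : (fun m => (coef 1 m : L) * v m) = fun m => x2 m * v m := by
    funext m; fin_cases m <;> simp [coef, x2]
  have g2 : (fun m => (coef 2 m : L) * v m) = fun m => x3 m * v m := by
    funext m; fin_cases m <;> simp [coef, x3]
  have t01 : conic 0 v = 0 → conic 1 v = 0 → conic 2 v ≠ 0 ∧
      cr (fun m => x1 m * v m) (fun m => x2 m * v m) ≠ 0 := by
    intro h h'
    rw [c0] at h; rw [c1] at h'; rw [c2]
    apply two_conics h h' hv
    · refine ⟨?_, ?_, ?_⟩ <;> simp [cr, x1, x2] <;> norm_num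
    · simp [cr, x1, x2, x3]; norm_num
  have t02 : conic 0 v = 0 → conic 2 v = 0 → conic 1 v ≠ 0 ∧
      cr (fun m => x1 m * v m) (fun m => x3 m * v m) ≠ 0 := by
    intro h h'
    rw [c0] at h; rw [c2] at h'; rw [c1]
    apply two_conics h h' hv
    · refine ⟨?_, ?_, ?_⟩ <;> simp [cr, x1, x3] <;> norm_num
    · simp [cr, x1, x2, x3]; norm_num
  have t12 : conic 1 v = 0 → conic 2 v = 0 → conic 0 v ≠ 0 ∧
      cr (fun m => x2 m * v m) (fun m => x3 m * v m) ≠ 0 := by
    intro h h'
    rw [c1] at h; rw [c2] at h'; rw [c0]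
    apply two_conics h h' hv
    · refine ⟨?_, ?_, ?_⟩ <;> simp [cr, x2, x3] <;> norm_num
    · simp [cr, x1, x2, x3]; norm_num
  have swap : ∀ {a b : Fin 3 → L}, cr a b ≠ 0 → LinearIndependent L ![b, a] := by
    intro a b hab
    apply indep_of_cr
    intro h
    apply hab
    have h0 := congrFun h 0
    have h1 := congrFun h 1
    have h2 := congrFun h 2
    simp [cr] at h0 h1 h2
    funext m
    fin_cases m
    · simp [cr]; linear_combination -h0
    · simp [cr]; linear_combination -h1
    · simp [cr]; linear_combination -h2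
  fin_cases i <;> fin_cases j <;> simp only [Fin.zero_eta, Fin.mk_one, Fin.reduceFinMk, ne_eq,
    not_true_eq_false] at hij hi hj ⊢
  · have t := t01 hi hj
    refine ⟨?_, by rw [g0, g1]; exact indep_of_cr t.2⟩
    intro k hk0 hk1
    fin_cases k
    · exact absurd rfl hk0
    · exact absurd rfl hk1
    · exact t.1
  · have t := t02 hi hj
    refine ⟨?_, by rw [g0, g2]; exact indep_of_cr t.2⟩
    intro k hk0 hk1
    fin_cases k
    · exact absurd rfl hk0
    · exact t.1
    · exact absurd rfl hk1
  · have t := t01 hj hi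
    refine ⟨?_, by rw [g0, g1]; exact swap t.2⟩
    intro k hk0 hk1
    fin_cases k
    · exact absurd rfl hk1
    · exact absurd rfl hk0
    · exact t.1
  · have t := t12 hi hj
    refine ⟨?_, by rw [g1, g2]; exact indep_of_cr t.2⟩
    intro k hk0 hk1
    fin_cases k
    · exact t.1
    · exact absurd rfl hk0
    · exact absurd rfl hk1
  · have t := t02 hj hi
    refine ⟨?_, by rw [g0, g2]; exact swap t.2⟩
    intro k hk0 hk1
    fin_cases k
    · exact absurd rfl hk1
    · exact t.1
    · exact absurd rfl hk0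
  · have t := t12 hj hi
    refine ⟨?_, by rw [g1, g2]; exact swap t.2⟩
    intro k hk0 hk1
    fin_cases k
    · exact t.1
    · exact absurd rfl hk1
    · exact absurd rfl hk0

end

end Pool.Agent.H437.MK
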