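import Pool.Agent.H437.MK.RealPart
import Pool.Agent.H437.MK.AllP

set_option autoImplicit false

namespace Pool.Agent.H437.MK

open Polynomial Matrix Filter Topology

section NoTritangent

variable {L : Type*} [Field L]

theorem f_smul {R : Type*} [CommRing R] (a : R) (v : Fin 3 → R) : f (a • v) = a ^ 6 * f v := by
  simp only [f, Pi.smul_apply, smul_eq_mul]; ring

/-- **No line is tritangent.** -/
theorem lineF_ne_sq [IsAlgClosed L] (hK : Good L) {u w : Fin 3 → L} (hn : cr u w ≠ 0)
    (H : L[X]) : lineF u w ≠ H ^ 2 := by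
  intro hH
  have : Infinite L := IsAlgClosed.instInfinite
  by_cases hw : f w = 0
  · have hex : ∃ T : L, f (u + T • w) ≠ 0 := by
      by_contra hcon
      push Not at hcon
      apply Gp_ne hK hn
      apply Polynomial.funext
      intro T
      rw [Gp_eval, hcon, eval_zero]
    obtain ⟨T, hT⟩ := hex
    have hdeg : H.natDegree ≤ 3 := by
      have h1 : (H ^ 2).natDegree ≤ 6 := by
        rw [← hH, lineF_eq_Gp]; exact Gp_degree_le u w
      rw [natDegree_pow] at h1
      omega
    have h6 : f w = (H.coeff 3) ^ 2 := by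
      rw [← lineF_coeff u w, hH, pow_two, show (6 : ℕ) = 3 + 3 by norm_num,
        coeff_mul_add_eq_of_natDegree_le hdeg hdeg, pow_two]
    have hHeval : ∀ Z : L, H.eval Z = H.coeff 0 + H.coeff 1 * Z + H.coeff 2 * Z ^ 2 +
        H.coeff 3 * Z ^ 3 := by
      intro Z
      rw [eval_eq_sum_range' (Nat.lt_succ_of_le hdeg)]
      simp [Finset.sum_range_succ]
    refine nosq hK (u := w) (w := u + T • w) ?_ hT
      (C (H.coeff 0) * X ^ 3 + C (H.coeff 1) * ((1 + C T * X) * X ^ 2) +
        C (H.coeff 2) * ((1 + C T * X) ^ 2 * X) + C (H.coeff 3) * (1 + C T * X) ^ 3) ?_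
    · intro h
      apply hn
      have h0 := congrFun h 0
      have h1 := congrFun h 1
      have h2 := congrFun h 2
      simp [cr] at h0 h1 h2
      funext i
      fin_cases i
      · simp [cr]; linear_combination -h0
      · simp [cr]; linear_combination -h1
      · simp [cr]; linear_combination -h2
    · intro Z
      simp only [eval_add, eval_mul, eval_C, eval_pow, eval_X, eval_one]
      by_cases hZ : Z = 0
      · subst hZ
        simp [h6]
      · have e1 : w + Z • (u + T • w) = Z • (u + ((1 + T * Z) / Z) • w) := by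
          funext i
          simp only [Pi.add_apply, Pi.smul_apply, smul_eq_mul]
          field_simp
          ring
        rw [e1, f_smul, ← lineF_eval, hH, eval_pow, hHeval]
        field_simp
  · exact nosq hK hn hw H (fun T => by rw [← lineF_eval, hH, eval_pow])

theorem good_charZero [CharZero L] : Good L :=
  ⟨by norm_num, by norm_num, by norm_num, by norm_num, by norm_num, by norm_num, by norm_num,
    by norm_num⟩

end NoTritangent

section Exists

variable {K L : Type*} [Field K] [Field L] [Algebra K L]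

theorem cr_map_ne {u w : Fin 3 → K} (hn : cr u w ≠ 0) :
    cr (fun i => algebraMap K L (u i)) (fun i => algebraMap K L (w i)) ≠ 0 := by
  intro h0
  apply hn
  funext i
  have h1 := congrFun h0 i
  apply (algebraMap K L).injective
  rw [Pi.zero_apply, map_zero]
  rw [Pi.zero_apply] at h1
  rw [← h1]
  fin_cases i <;> simp [cr]

/-- a `K`-point of the double plane over the line gives a point of the moduli space. -/
theorem exists_pt {u w : Fin 3 → K} (h : LinearIndependent K ![u, w]) {T c : K}
    (hT : f (u + T • w) = c ^ 2) : ∃ x : Pt K L, x.u = u ∧ x.w = w := by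
  have hroot : (lineF u w - C (c ^ 2)).IsRoot T := by
    rw [IsRoot.def, eval_sub, eval_C, lineF_eval, hT, sub_self]
  obtain ⟨B, hB⟩ := dvd_iff_isRoot.2 hroot
  have hF : lineF u w = (C c) ^ 2 + B * (X - C T) := by
    rw [mul_comm B, ← hB, C_pow]; ring
  have hBdeg : B.degree ≤ (5 : ℕ) := by
    rcases eq_or_ne B 0 with h0 | h0
    · rw [h0]; simp
    · have h1 : (lineF u w - C (c ^ 2)).natDegree ≤ 6 := by
        refine (natDegree_sub_le _ _).trans (max_le ?_ ?_)
        · rw [lineF_eq_Gp]; exact Gp_degree_le u w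
        · rw [natDegree_C]; norm_num
      rw [hB, natDegree_mul (X_sub_C_ne_zero T) h0, natDegree_X_sub_C] at h1
      exact natDegree_le_iff_degree_le.1 (by omega)
  let φ₀ : Matrix (Fin 2) (Fin 2) K[X] := !![C c, B; X - C T, -C c]
  have hs : IsSheaf u w 1 φ₀ := by
    refine ⟨⟨?_, ?_, ?_, ?_⟩, ?_⟩
    · simp only [φ₀, Matrix.of_apply, Matrix.cons_val', Matrix.cons_val_zero,
        Matrix.cons_val_fin_one]
      exact degree_C_le.trans (by norm_num)
    · simpa [φ₀] using hBdeg
    · simp only [φ₀, Matrix.of_apply, Matrix.cons_val', Matrix.cons_val_zero, Matrix.cons_val_one,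
        Matrix.cons_val_fin_one]
      rw [degree_X_sub_C]
      norm_num
    · simp only [φ₀, Matrix.of_apply, Matrix.cons_val', Matrix.cons_val_one,
        Matrix.cons_val_fin_one, degree_neg]
      exact degree_C_le.trans (by norm_num)
    · rw [hF]
      ext1 i j
      fin_cases i <;> fin_cases j <;>
        simp only [φ₀, Matrix.mul_apply, Fin.sum_univ_two, Fin.zero_eta, Fin.mk_one,
          Matrix.of_apply, Matrix.cons_val', Matrix.cons_val_zero, Matrix.cons_val_one,
          Matrix.cons_val_fin_one, Matrix.smul_apply, Matrix.one_apply_eq, smul_eq_mul, mul_one,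
          ne_eq, zero_ne_one, one_ne_zero, not_false_eq_true, Matrix.one_apply_ne, mul_zero] <;>
        ring
  refine ⟨⟨u, w, h, 1, φ₀.map (Polynomial.map (algebraMap K L)), hs.map _, ?_⟩, rfl, rfl⟩
  intro σ
  have : (φ₀.map (Polynomial.map (algebraMap K L))).map (Polynomial.map (σ : L →+* L)) =
      φ₀.map (Polynomial.map (algebraMap K L)) := by
    ext1 i j
    simp only [Matrix.map_apply]
    rw [Polynomial.map_map]
    congr 1
    ext z
    exact σ.commutes z
  rw [this]
  exact Iso.refl _ _

end Exists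

section Padic

variable {p : ℕ} [hp : Fact p.Prime]

/-- the point on the line may be taken outside of a given one. -/
theorem line_pt_finite {u w : Fin 3 → ℚ_[p]} (hn : cr u w ≠ 0) :
    ∃ T c : ℚ_[p], c ≠ 0 ∧ f (u + T • w) = c ^ 2 := by
  obtain ⟨s, t, c, hc, h⟩ := line_pt hn
  by_cases hs : s = 0
  · subst hs
    rw [zero_smul, zero_add, f_smul] at h
    have ht : t ≠ 0 := by
      rintro rfl
      rw [zero_pow (by norm_num), zero_mul] at h
      exact hc (pow_eq_zero_iff two_ne_zero |>.1 h.symm)
    have hfw : f w = (c / t ^ 3) ^ 2 := by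
      field_simp
      linear_combination h
    have hfw0 : f w ≠ 0 := by
      rw [hfw]; exact pow_ne_zero 2 (div_ne_zero hc (pow_ne_zero 3 ht))
    have hcont : Continuous (fun e : ℚ_[p] => f (w + e • u) / f w) := by
      simp only [f, Pi.add_apply, Pi.smul_apply, smul_eq_mul]
      fun_prop
    have hlim : Tendsto (fun e : ℚ_[p] => f (w + e • u) / f w) (𝓝[≠] 0) (𝓝 1) := by
      have h1 := hcont.tendsto 0
      simp only [zero_smul, add_zero, div_self hfw0] at h1
      exact h1.mono_left nhdsWithin_le_nhds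
    have h2 : (0 : ℝ) < ‖(2 : ℤ_[p])‖ ^ 2 := by
      have : (2 : ℤ_[p]) ≠ 0 := by
        have h2' : ((2 : ℕ) : ℤ_[p]) ≠ 0 := by exact_mod_cast (two_ne_zero : (2 : ℕ) ≠ 0)
        exact_mod_cast h2'
      positivity
    have hev := (Metric.tendsto_nhds.1 hlim) _ h2
    obtain ⟨e, he, he0⟩ := (hev.and self_mem_nhdsWithin).exists
    have he0' : e ≠ 0 := he0
    rw [dist_eq_norm] at he
    set g := f (w + e • u) / f w with hg
    have hg1 : ‖g‖ ≤ 1 := by
      have h3 : ‖(2 : ℤ_[p])‖ ≤ 1 := PadicInt.norm_le_one _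
      have h4 : ‖g - 1‖ ≤ 1 := he.le.trans (pow_le_one₀ (norm_nonneg _) h3)
      have h5 : g = (g - 1) + 1 := by ring
      rw [h5]
      exact (Padic.nonarchimedean _ _).trans (max_le h4 (by simp))
    obtain ⟨G, hG⟩ : ∃ G : ℤ_[p], (G : ℚ_[p]) = g := ⟨⟨g, hg1⟩, rfl⟩
    have hsq : IsSquare G := by
      refine DP.isSquare_of_close (a := 1) ?_
      rw [mul_one, ← norm_neg]
      have : -((1 : ℤ_[p]) ^ 2 - G) = G - 1 := by ring
      rw [this, PadicInt.norm_def, PadicInt.coe_sub, PadicInt.coe_one, hG]
      exact he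
    obtain ⟨r, hr⟩ := hsq
    have hr' : g = (r : ℚ_[p]) ^ 2 := by
      have := congrArg (fun z : ℤ_[p] => (z : ℚ_[p])) hr
      simp only [PadicInt.coe_mul] at this
      rw [pow_two, ← hG]; exact this
    have hg0 : g ≠ 0 := by
      intro h0
      rw [h0, zero_sub, norm_neg, norm_one] at he
      have h3 : ‖(2 : ℤ_[p])‖ ^ 2 ≤ 1 := pow_le_one₀ (norm_nonneg _) (PadicInt.norm_le_one _)
      linarith
    have hval : f (w + e • u) = g * f w := by
      rw [hg, div_mul_cancel₀ _ hfw0]
    refine ⟨e⁻¹, (r : ℚ_[p]) * (c / t ^ 3) / e ^ 3, ?_, ?_⟩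
    · refine div_ne_zero (mul_ne_zero ?_ (div_ne_zero hc (pow_ne_zero 3 ht))) (pow_ne_zero 3 he0')
      intro h0
      rw [h0] at hr'
      exact hg0 (by rw [hr']; ring)
    · have e1 : u + e⁻¹ • w = e⁻¹ • (w + e • u) := by
        funext i
        simp only [Pi.add_apply, Pi.smul_apply, smul_eq_mul]
        field_simp
        ring
      rw [e1, f_smul, hval, hr', hfw]
      field_simp
  · refine ⟨t / s, c / s ^ 3, div_ne_zero hc (pow_ne_zero 3 hs), ?_⟩
    have e1 : u + (t / s) • w = s⁻¹ • (s • u + t • w) := by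
      funext i
      simp only [Pi.add_apply, Pi.smul_apply, smul_eq_mul]
      field_simp
    rw [e1, f_smul, h]
    field_simp

theorem split_padic (x : Pt ℚ_[p] (AlgebraicClosure ℚ_[p])) : x.Split := by
  obtain ⟨T, c, hc, hT⟩ := line_pt_finite (cr_ne_of_indep x.indep)
  exact split_of_pt x (by norm_num) (lineF_ne_sq good_charZero
    (cr_map_ne (cr_ne_of_indep x.indep))) hc hT

theorem exists_padic {u w : Fin 3 → ℚ_[p]} (h : LinearIndependent ℚ_[p] ![u, w]) :
    ∃ x : Pt ℚ_[p] (AlgebraicClosure ℚ_[p]), x.u = u ∧ x.w = w := by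
  obtain ⟨T, c, -, hT⟩ := line_pt_finite (cr_ne_of_indep h)
  exact exists_pt h hT

end Padic

end Pool.Agent.H437.MK
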