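import Pool.Agent.H437.MK.Descent1

set_option autoImplicit false

namespace Pool.Agent.H437.MK

open Polynomial Matrix Filter

theorem odd_root {P : ℝ[X]} (h : Odd P.natDegree) : ∃ x, P.eval x = 0 := by
  have main : ∀ P : ℝ[X], Odd P.natDegree → 0 ≤ P.leadingCoeff → ∃ x, P.eval x = 0 := by
    intro P h hl
    have hn : 0 < P.natDegree := h.pos
    have h1 : Tendsto (fun x => P.eval x) atTop atTop :=
      P.tendsto_atTop_of_leadingCoeff_nonneg (natDegree_pos_iff_degree_pos.1 hn) hl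
    set Q := -(P.comp (-X)) with hQ
    have hX : (-X : ℝ[X]).natDegree = 1 := by rw [natDegree_neg, natDegree_X]
    have hQn : Q.natDegree = P.natDegree := by
      rw [hQ, natDegree_neg, natDegree_comp, hX, mul_one]
    have hQl : Q.leadingCoeff = P.leadingCoeff := by
      rw [hQ, leadingCoeff_neg, leadingCoeff_comp (by rw [hX]; exact one_ne_zero),
        leadingCoeff_neg, leadingCoeff_X, h.neg_one_pow]
      ring
    have h2 : Tendsto (fun x => Q.eval x) atTop atTop :=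
      Q.tendsto_atTop_of_leadingCoeff_nonneg
        (natDegree_pos_iff_degree_pos.1 (by rw [hQn]; exact hn)) (by rw [hQl]; exact hl)
    have h3 : Tendsto (fun x => P.eval x) atBot atBot := by
      have h4 : Tendsto (fun x => -(Q.eval (-x))) atBot atBot :=
        tendsto_neg_atTop_atBot.comp (h2.comp tendsto_neg_atBot_atTop)
      refine h4.congr ?_
      intro x
      simp [hQ]
    have hsurj := P.continuous.surjective h1 h3
    exact hsurj 0
  rcases le_total 0 P.leadingCoeff with hl | hl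
  · exact main P h hl
  · obtain ⟨x, hx⟩ := main (-P) (by rwa [natDegree_neg]) (by rw [leadingCoeff_neg]; linarith)
    exact ⟨x, by rw [eval_neg] at hx; linarith⟩

theorem f_neg {v : Fin 3 → ℝ} (hv : v ≠ 0) : f v < 0 := by
  have hpos : 0 < v 0 ^ 2 + v 1 ^ 2 + v 2 ^ 2 := by
    by_contra hcon
    apply hv
    have h0 := sq_nonneg (v 0)
    have h1 := sq_nonneg (v 1)
    have h2 := sq_nonneg (v 2)
    funext i
    fin_cases i
    · exact pow_eq_zero_iff two_ne_zero |>.1 (by linarith : v 0 ^ 2 = 0)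
    · exact pow_eq_zero_iff two_ne_zero |>.1 (by linarith : v 1 ^ 2 = 0)
    · exact pow_eq_zero_iff two_ne_zero |>.1 (by linarith : v 2 ^ 2 = 0)
  have h0 := sq_nonneg (v 0)
  have h1 := sq_nonneg (v 1)
  have h2 := sq_nonneg (v 2)
  have e1 : 0 < v 0 ^ 2 + v 1 ^ 2 + 3 * v 2 ^ 2 := by linarith
  have e2 : 0 < v 0 ^ 2 + 8 * v 1 ^ 2 + 14 * v 2 ^ 2 := by linarith
  have e3 : 0 < v 0 ^ 2 + 4 * v 1 ^ 2 + 10 * v 2 ^ 2 := by linarith
  have := mul_pos (mul_pos e1 e2) e3
  simp only [f]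
  linarith

theorem lineF_coeff {L : Type*} [Field L] (u w : Fin 3 → L) : (lineF u w).coeff 6 = f w := by
  rw [lineF_eq_Gp, Gp, f_eq, coeff_C_mul]
  have h1 := Pq_degree_le x1 u w
  have h2 := Pq_degree_le x2 u w
  have h3 := Pq_degree_le x3 u w
  have h12 : (Pq x1 u w * Pq x2 u w).natDegree ≤ 4 := by
    have := natDegree_mul_le (p := Pq x1 u w) (q := Pq x2 u w)
    omega
  have e : ∀ x : Fin 3 → L, (Pq x u w).coeff 2 = qf x w := by
    intro x
    simp [Pq, coeff_X, coeff_C]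
  rw [show (6 : ℕ) = 4 + 2 by norm_num, coeff_mul_add_eq_of_natDegree_le h12 h3,
    show (4 : ℕ) = 2 + 2 by norm_num, coeff_mul_add_eq_of_natDegree_le h1 h2, e, e, e]

/-- **There is no sheaf over `ℝ`.** -/
theorem not_sheaf_real {u w : Fin 3 → ℝ} (hn : cr u w ≠ 0) {r : ℕ}
    {φ : Matrix (Fin 2) (Fin 2) ℝ[X]} (h : IsSheaf u w r φ) : False := by
  have hw : w ≠ 0 := by rintro rfl; apply hn; funext i; fin_cases i <;> simp [cr]
  have huw : ∀ T : ℝ, u + T • w ≠ 0 := by
    intro T h0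
    apply hn
    have h4 : ∀ i, u i = - (T * w i) := by
      intro i
      have := congrFun h0 i
      simp only [Pi.add_apply, Pi.smul_apply, smul_eq_mul, Pi.zero_apply] at this
      linear_combination this
    funext i
    fin_cases i <;> simp [cr, h4] <;> ring
  have hneg : ∀ T : ℝ, (lineF u w).eval T < 0 := by
    intro T; rw [lineF_eval]; exact f_neg (huw T)
  have hsq : ∀ H : ℝ[X], lineF u w ≠ H ^ 2 := by
    intro H h0
    have := hneg 0
    rw [h0, eval_pow] at this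
    exact absurd this (not_lt.2 (sq_nonneg _))
  obtain ⟨-, e00, hb, hc⟩ := h.entries hsq
  obtain ⟨h1, h2, h3, h4⟩ := h.1
  have h1' : (φ 0 0).natDegree ≤ 3 := natDegree_le_iff_degree_le.2 h1
  have h2' : (φ 0 1).natDegree ≤ 3 + 2 * r := natDegree_le_iff_degree_le.2 h2
  have h3' : (φ 1 0).natDegree + 2 * r ≤ 3 := by
    rw [degree_eq_natDegree hc] at h3
    exact_mod_cast h3
  have h3'' : (φ 1 0).natDegree ≤ 3 - 2 * r := by omega
  have hcoef := congrArg (fun P => P.coeff 6) e00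
  simp only [coeff_add] at hcoef
  rw [lineF_coeff, pow_two, show (6 : ℕ) = 3 + 3 by norm_num,
    coeff_mul_add_eq_of_natDegree_le h1' h1', show (3 + 3 : ℕ) = (3 + 2 * r) + (3 - 2 * r) by omega,
    coeff_mul_add_eq_of_natDegree_le h2' h3''] at hcoef
  have hw' := f_neg hw
  have hc3 : (φ 1 0).coeff (3 - 2 * r) ≠ 0 := by
    intro h0
    rw [h0, mul_zero, add_zero] at hcoef
    have := mul_self_nonneg ((φ 0 0).coeff 3)
    linarith
  have hdeg : (φ 1 0).natDegree = 3 - 2 * r :=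
    le_antisymm h3'' (le_natDegree_of_ne_zero hc3)
  have hodd : Odd (φ 1 0).natDegree := by
    rw [hdeg]
    have : r = 0 ∨ r = 1 := by omega
    rcases this with rfl | rfl
    · exact ⟨1, by norm_num⟩
    · exact ⟨0, by norm_num⟩
  obtain ⟨T, hT⟩ := odd_root hodd
  have h5 := congrArg (Polynomial.eval T) e00
  simp only [eval_add, eval_pow, eval_mul, hT, mul_zero, add_zero] at h5
  have h6 := hneg T
  rw [← h5] at h6
  exact absurd h6 (not_lt.2 (sq_nonneg _))

theorem not_split_real (x : Pt ℝ ℂ) : ¬ x.Split := by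
  rintro ⟨φ₀, h, -⟩
  exact not_sheaf_real (cr_ne_of_indep x.indep) h

/-- a positive definite quadratic polynomial is a sum of two squares. -/
theorem two_sq {a b c : ℝ} (ha : 0 < a) (hd : 0 < a * c - b ^ 2) :
    ∃ A B : ℝ[X], A.natDegree ≤ 1 ∧ B.natDegree ≤ 1 ∧
      C a * X ^ 2 + C (2 * b) * X + C c = A ^ 2 + B ^ 2 := by
  refine ⟨C (Real.sqrt a) * X + C (b / Real.sqrt a), C (Real.sqrt ((a * c - b ^ 2) / a)), ?_, ?_, ?_⟩
  · exact natDegree_linear_le
  · simp
  · have hs : Real.sqrt a ^ 2 = a := Real.sq_sqrt ha.le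
    have hs0 : Real.sqrt a ≠ 0 := (Real.sqrt_pos.2 ha).ne'
    have hs' : Real.sqrt ((a * c - b ^ 2) / a) ^ 2 = (a * c - b ^ 2) / a :=
      Real.sq_sqrt (div_pos hd ha).le
    have e1 : (C (Real.sqrt a) * X + C (b / Real.sqrt a) : ℝ[X]) ^ 2 =
        C (Real.sqrt a ^ 2) * X ^ 2 + C (2 * (Real.sqrt a * (b / Real.sqrt a))) * X +
          C ((b / Real.sqrt a) ^ 2) := by
      simp only [map_mul, map_pow, map_ofNat]; ring
    have hC : (C (b ^ 2 / a) : ℝ[X]) + C ((a * c - b ^ 2) / a) = C c := by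
      rw [← C_add]; congr 1; field_simp; ring
    rw [e1, ← C_pow, hs', hs, mul_div_cancel₀ _ hs0, div_pow, hs]
    linear_combination -hC

theorem sum_sq_mul {A B A' B' : ℝ[X]} {m n : ℕ} (h1 : A.natDegree ≤ m) (h2 : B.natDegree ≤ m)
    (h3 : A'.natDegree ≤ n) (h4 : B'.natDegree ≤ n) :
    ∃ A'' B'' : ℝ[X], A''.natDegree ≤ m + n ∧ B''.natDegree ≤ m + n ∧
      (A ^ 2 + B ^ 2) * (A' ^ 2 + B' ^ 2) = A'' ^ 2 + B'' ^ 2 := by
  refine ⟨A * A' - B * B', A * B' + B * A', ?_, ?_, by ring⟩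
  · refine (natDegree_sub_le _ _).trans (max_le ?_ ?_)
    · exact natDegree_mul_le_of_le h1 h3
    · exact natDegree_mul_le_of_le h2 h4
  · refine (natDegree_add_le _ _).trans (max_le ?_ ?_)
    · exact natDegree_mul_le_of_le h1 h4
    · exact natDegree_mul_le_of_le h2 h3

theorem qf_pos {x v : Fin 3 → ℝ} (h0 : 0 < x 0) (h1 : 0 < x 1) (h2 : 0 < x 2) (hv : v ≠ 0) :
    0 < qf x v := by
  have hcase : v 0 ≠ 0 ∨ v 1 ≠ 0 ∨ v 2 ≠ 0 := by
    by_contra hcon
    push Not at hcon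
    apply hv
    funext i
    fin_cases i
    · exact hcon.1
    · exact hcon.2.1
    · exact hcon.2.2
  have k0 := mul_nonneg h0.le (sq_nonneg (v 0))
  have k1 := mul_nonneg h1.le (sq_nonneg (v 1))
  have k2 := mul_nonneg h2.le (sq_nonneg (v 2))
  simp only [qf]
  rcases hcase with h | h | h
  · have := mul_pos h0 (by positivity : 0 < v 0 ^ 2); linarith
  · have := mul_pos h1 (by positivity : 0 < v 1 ^ 2); linarith
  · have := mul_pos h2 (by positivity : 0 < v 2 ^ 2); linarith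

theorem ef_pos {x N : Fin 3 → ℝ} (h0 : 0 < x 0) (h1 : 0 < x 1) (h2 : 0 < x 2)
    (hN : ∀ i, 0 ≤ N i) (hN' : N ≠ 0) : 0 < ef x N := by
  have hcase : N 0 ≠ 0 ∨ N 1 ≠ 0 ∨ N 2 ≠ 0 := by
    by_contra hcon
    push Not at hcon
    apply hN'
    funext i
    fin_cases i
    · exact hcon.1
    · exact hcon.2.1
    · exact hcon.2.2
  have k0 := mul_nonneg (mul_pos h1 h2).le (hN 0)
  have k1 := mul_nonneg (mul_pos h2 h0).le (hN 1)
  have k2 := mul_nonneg (mul_pos h0 h1).le (hN 2)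
  simp only [ef]
  rcases hcase with h | h | h
  · have := mul_pos (mul_pos h1 h2) (lt_of_le_of_ne (hN 0) (Ne.symm h)); linarith
  · have := mul_pos (mul_pos h2 h0) (lt_of_le_of_ne (hN 1) (Ne.symm h)); linarith
  · have := mul_pos (mul_pos h0 h1) (lt_of_le_of_ne (hN 2) (Ne.symm h)); linarith

theorem line_two_sq {u w : Fin 3 → ℝ} (hn : cr u w ≠ 0) :
    ∃ A B : ℝ[X], A.natDegree ≤ 3 ∧ B.natDegree ≤ 3 ∧ lineF u w = -(A ^ 2 + B ^ 2) := by
  have hw : w ≠ 0 := by rintro rfl; apply hn; funext i; fin_cases i <;> simp [cr]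
  have hN : ∀ i, 0 ≤ sqv (cr u w) i := fun i => sq_nonneg _
  have hN' : sqv (cr u w) ≠ 0 := by
    intro h
    apply hn
    funext i
    have h4 := congrFun h i
    simp only [sqv, Pi.zero_apply] at h4
    simpa using h4
  have key : ∀ x : Fin 3 → ℝ, 0 < x 0 → 0 < x 1 → 0 < x 2 → ∃ A B : ℝ[X], A.natDegree ≤ 1 ∧
      B.natDegree ≤ 1 ∧ Pq x u w = A ^ 2 + B ^ 2 := by
    intro x h0 h1 h2
    apply two_sq (qf_pos h0 h1 h2 hw)
    have := ef_pos h0 h1 h2 hN hN'
    rw [← gram] at this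
    linarith
  obtain ⟨A1, B1, a1, b1, e1⟩ := key x1 (by simp [x1]) (by simp [x1]) (by simp [x1])
  obtain ⟨A2, B2, a2, b2, e2⟩ := key x2 (by simp [x2]) (by simp [x2]) (by simp [x2])
  obtain ⟨A3, B3, a3, b3, e3⟩ := key x3 (by simp [x3]) (by simp [x3]) (by simp [x3])
  obtain ⟨A4, B4, a4, b4, e4⟩ := sum_sq_mul a1 b1 a2 b2
  obtain ⟨A5, B5, a5, b5, e5⟩ := sum_sq_mul a4 b4 a3 b3
  have hs3 : Real.sqrt 3 ^ 2 = 3 := Real.sq_sqrt (by norm_num)
  refine ⟨C (Real.sqrt 3) * A5, C (Real.sqrt 3) * B5,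
    (natDegree_C_mul_le _ _).trans a5, (natDegree_C_mul_le _ _).trans b5, ?_⟩
  have e6 : (C (Real.sqrt 3) : ℝ[X]) ^ 2 = 3 := by
    rw [← C_pow, hs3]; rfl
  rw [lineF_eq_Gp, Gp, e1, e2, e3, e4, e5, mul_pow, mul_pow, e6]
  have e7 : (C (-3 : ℝ) : ℝ[X]) = -3 := by rw [C_neg]; rfl
  rw [e7]; ring

/-- **There are real points on every real line.** -/
theorem exists_real {u w : Fin 3 → ℝ} (h : LinearIndependent ℝ ![u, w]) :
    ∃ x : Pt ℝ ℂ, x.u = u ∧ x.w = w := by
  obtain ⟨A, B, hA, hB, hF⟩ := line_two_sq (cr_ne_of_indep h)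
  let ι : ℝ →+* ℂ := algebraMap ℝ ℂ
  let a : ℂ[X] := A.map ι
  let b : ℂ[X] := B.map ι
  have ha : (C Complex.I * a).degree ≤ (3 : ℕ) := by
    rw [degree_C_mul Complex.I_ne_zero, degree_map]; exact natDegree_le_iff_degree_le.1 hA
  have hb : b.degree ≤ (3 : ℕ) := by
    rw [degree_map]; exact natDegree_le_iff_degree_le.1 hB
  have hI : (C Complex.I * C Complex.I : ℂ[X]) = -1 := by
    rw [← C_mul, Complex.I_mul_I, C_neg, C_1]
  refine ⟨⟨u, w, h, 0, !![C Complex.I * a, b; -b, -(C Complex.I * a)], ⟨?_, ?_⟩, ?_⟩, rfl, rfl⟩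
  · refine ⟨?_, ?_, ?_, ?_⟩
    · simpa using ha
    · simpa using hb
    · simpa using hb
    · simpa using ha
  · have hF' : lineF (fun i => algebraMap ℝ ℂ (u i)) (fun i => algebraMap ℝ ℂ (w i)) =
        -(a ^ 2 + b ^ 2) := by
      rw [← lineF_map (algebraMap ℝ ℂ) u w, hF]
      simp [a, b, ι]
    rw [hF']
    ext1 i j
    fin_cases i <;> fin_cases j <;>
      simp only [Matrix.mul_apply, Fin.sum_univ_two, Fin.zero_eta, Fin.mk_one, Matrix.of_apply,
        Matrix.cons_val', Matrix.cons_val_zero, Matrix.cons_val_one, Matrix.cons_val_fin_one,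
        Matrix.smul_apply, Matrix.one_apply_eq, smul_eq_mul, mul_one, ne_eq, zero_ne_one,
        one_ne_zero, not_false_eq_true, Matrix.one_apply_ne, mul_zero]
    · linear_combination (a ^ 2) * hI
    · ring
    · ring
    · linear_combination (a ^ 2) * hI
  · intro σ
    have haσ : ∀ P : ℝ[X], (P.map ι).map (σ : ℂ →+* ℂ) = P.map ι := by
      intro P
      rw [Polynomial.map_map]
      congr 1
      ext z
      exact σ.commutes z
    rcases Complex.real_algHom_eq_id_or_conj (σ : ℂ →ₐ[ℝ] ℂ) with h1 | h1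
    · have h2 : σ Complex.I = Complex.I := by
        have := DFunLike.congr_fun h1 Complex.I
        simpa using this
      have h3 : (!![C Complex.I * a, b; -b, -(C Complex.I * a)] :
          Matrix (Fin 2) (Fin 2) ℂ[X]).map (Polynomial.map (σ : ℂ →+* ℂ)) =
          !![C Complex.I * a, b; -b, -(C Complex.I * a)] := by
        ext1 i j
        fin_cases i <;> fin_cases j <;> simp [haσ, a, b, h2]
      rw [h3]
      exact Iso.refl _ _
    · have h2 : σ Complex.I = -Complex.I := by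
        have := DFunLike.congr_fun h1 Complex.I
        simpa using this
      refine ⟨!![0, 1; -1, 0], !![0, -1; 1, 0], ?_, ?_, ?_, ?_⟩
      · refine ⟨?_, ?_, ?_, ?_⟩ <;> simp
      · refine ⟨?_, ?_, ?_, ?_⟩ <;> simp
      · ext1 i j
        fin_cases i <;> fin_cases j <;> simp [Matrix.mul_apply, Fin.sum_univ_two]
      · ext1 i j
        fin_cases i <;> fin_cases j <;>
          simp [Matrix.mul_apply, Fin.sum_univ_two, haσ, a, b, h2]

end Pool.Agent.H437.MK
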