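import Pool.Agent.H437.MK.Tree

set_option autoImplicit false

namespace Pool.Agent.H437.MK

theorem t2 : (tree 2 0 5 0 0 0 && tree 2 1 5 0 0 0 && tree 2 2 5 0 0 0) = true := by decide +kernel
theorem t3 : (tree 3 0 3 0 0 0 && tree 3 1 3 0 0 0 && tree 3 2 3 0 0 0) = true := by decide +kernel
theorem t5 : (tree 5 0 3 0 0 0 && tree 5 1 3 0 0 0 && tree 5 2 3 0 0 0) = true := by decide +kernel
theorem t7 : (tree 7 0 1 0 0 0 && tree 7 1 1 0 0 0 && tree 7 2 1 0 0 0) = true := by decide +kernel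
theorem t11 : (tree 11 0 1 0 0 0 && tree 11 1 1 0 0 0 && tree 11 2 1 0 0 0) = true := by decide +kernel
theorem t13 : (tree 13 0 1 0 0 0 && tree 13 1 1 0 0 0 && tree 13 2 1 0 0 0) = true := by decide +kernel
theorem t17 : (tree 17 0 1 0 0 0 && tree 17 1 1 0 0 0 && tree 17 2 1 0 0 0) = true := by decide +kernel
theorem t19 : (tree 19 0 1 0 0 0 && tree 19 1 1 0 0 0 && tree 19 2 1 0 0 0) = true := by decide +kernel
theorem t23 : (tree 23 0 1 0 0 0 && tree 23 1 1 0 0 0 && tree 23 2 1 0 0 0) = true := by decide +kernel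
theorem t29 : (tree 29 0 1 0 0 0 && tree 29 1 1 0 0 0 && tree 29 2 1 0 0 0) = true := by decide +kernel
theorem t31 : (tree 31 0 1 0 0 0 && tree 31 1 1 0 0 0 && tree 31 2 1 0 0 0) = true := by decide +kernel
theorem t41 : (tree 41 0 1 0 0 0 && tree 41 1 1 0 0 0 && tree 41 2 1 0 0 0) = true := by decide +kernel

end Pool.Agent.H437.MK
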