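import Pool.Agent.H437.MK.NoSq
import Pool.Agent.H437.DP.Norms

/-!
# Small primes

A computation which shows that every line over `ℤ_[p]` has a point at which the sextic is a
nonzero square.
-/

set_option autoImplicit false

namespace Pool.Agent.H437.MK

/-- the value of the sextic modulo `M`. -/
def fN (M x y z : ℕ) : ℕ :=
  (M - (3 * ((x * x + y * y + 3 * (z * z)) * (x * x + 8 * (y * y) + 14 * (z * z)) *
    (x * x + 4 * (y * y) + 10 * (z * z)))) % M) % M

/-- the three charts. -/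
def fch (M ch a b x y : ℕ) : ℕ :=
  match ch with
  | 0 => fN M ((a * x + b * y) % M) x y
  | 1 => fN M x ((a * x + b * y) % M) y
  | _ => fN M x y ((a * x + b * y) % M)

/-- a unit modulo `p ^ m` all whose lifts are squares. -/
def unitOk (p m v : ℕ) : Bool :=
  if p = 2 then decide (3 ≤ m) && (v % 8 == 1)
  else decide (1 ≤ m) && ((v % p) ^ (p / 2) % p == 1)

/-- a residue modulo `p ^ m` all whose lifts are nonzero squares. -/
def okv (p : ℕ) : ℕ → ℕ → ℕ → Bool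
  | 0, m, v => unitOk p m v
  | k + 1, m, v => unitOk p m v ||
      (decide (2 ≤ m) && (v % (p * p) == 0) && okv p k (m - 2) (v / (p * p)))

/-- bounded search. -/
def anyLt (P : ℕ → Bool) : ℕ → Bool
  | 0 => false
  | n + 1 => P n || anyLt P n

/-- bounded check. -/
def allLt (P : ℕ → Bool) : ℕ → Bool
  | 0 => true
  | n + 1 => P n && allLt P n

theorem anyLt_spec {P : ℕ → Bool} {n : ℕ} (h : anyLt P n = true) : ∃ i < n, P i = true := by
  induction n with
  | zero => simp [anyLt] at h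
  | succ n ih =>
    simp only [anyLt, Bool.or_eq_true] at h
    rcases h with h | h
    · exact ⟨n, Nat.lt_succ_self n, h⟩
    · obtain ⟨i, hi, h'⟩ := ih h
      exact ⟨i, Nat.lt_succ_of_lt hi, h'⟩

theorem allLt_spec {P : ℕ → Bool} {n : ℕ} (h : allLt P n = true) : ∀ i < n, P i = true := by
  induction n with
  | zero => intro i hi; omega
  | succ n ih =>
    simp only [allLt, Bool.and_eq_true] at h
    intro i hi
    rcases Nat.lt_succ_iff_lt_or_eq.1 hi with h' | rfl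
    · exact ih h.2 i h'
    · exact h.1

/-- the line `(a, b)` of a chart modulo `p ^ m` has a good point. -/
def lineOk (p ch m a b : ℕ) : Bool :=
  anyLt (fun t => okv p (m / 2) m (fch (p ^ m) ch a b 1 t)) (p ^ m) ||
    anyLt (fun s => okv p (m / 2) m (fch (p ^ m) ch a b (p * s) 1)) (p ^ (m - 1))

/-- all lines that reduce to `(a, b)` modulo `p ^ m` have a good point. -/
def tree (p ch : ℕ) : ℕ → ℕ → ℕ → ℕ → Bool
  | 0, m, a, b => lineOk p ch m a b
  | k + 1, m, a, b => lineOk p ch m a b ||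
      allLt (fun s => allLt (fun t => tree p ch k (m + 1) (a + s * p ^ m) (b + t * p ^ m)) p) p

/-- a point of the line with parameters `a`, `b` in a chart. -/
def chart {R : Type*} [CommRing R] (ch : ℕ) (a b x y : R) : Fin 3 → R :=
  match ch with
  | 0 => ![a * x + b * y, x, y]
  | 1 => ![x, a * x + b * y, y]
  | _ => ![x, y, a * x + b * y]

section

variable {p : ℕ} [hp : Fact p.Prime]

theorem okv_sound (k m v : ℕ) (h : okv p k m v = true) (V t : ℤ_[p])
    (hV : V = (v : ℤ_[p]) + (p : ℤ_[p]) ^ m * t) : ∃ c : ℤ_[p], c ≠ 0 ∧ V = c ^ 2 := by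
  have hunit : ∀ (m v : ℕ) (V t : ℤ_[p]), unitOk p m v = true →
      V = (v : ℤ_[p]) + (p : ℤ_[p]) ^ m * t → ∃ c : ℤ_[p], c ≠ 0 ∧ V = c ^ 2 := by
    intro m v V t h hV
    have hp0 : (p : ℤ_[p]) ≠ 0 := by exact_mod_cast hp.out.ne_zero
    unfold unitOk at h
    by_cases h2 : p = 2
    · subst h2
      simp only [if_true, Bool.and_eq_true, decide_eq_true_eq, beq_iff_eq] at h
      obtain ⟨hm, hv⟩ := h
      obtain ⟨e, rfl⟩ : ∃ e, m = e + 3 := ⟨m - 3, by omega⟩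
      have hv' : (v : ℤ_[2]) = 8 * ((v / 8 : ℕ) : ℤ_[2]) + 1 := by
        have : v = 8 * (v / 8) + 1 := by omega
        exact_mod_cast congrArg (fun n : ℕ => (n : ℤ_[2])) this
      have hV' : V = 1 + 8 * (((v / 8 : ℕ) : ℤ_[2]) + 2 ^ e * t) := by
        rw [hV, hv', pow_add]; push_cast; ring
      have hn2 : ‖(2 : ℤ_[2])‖ = 2⁻¹ := by
        have := PadicInt.norm_p (p := 2); exact_mod_cast this
      have hs : IsSquare V := by
        refine DP.isSquare_of_close (a := 1) ?_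
        have e1 : (1 : ℤ_[2]) ^ 2 - V = -(2 ^ 3 * (((v / 8 : ℕ) : ℤ_[2]) + 2 ^ e * t)) := by
          rw [hV']; ring
        rw [e1, norm_neg, norm_mul, norm_pow, mul_one, hn2]
        have := PadicInt.norm_le_one (((v / 8 : ℕ) : ℤ_[2]) + 2 ^ e * t)
        nlinarith [norm_nonneg (((v / 8 : ℕ) : ℤ_[2]) + 2 ^ e * t)]
      obtain ⟨c, hc⟩ := hs
      refine ⟨c, ?_, by rw [hc]; ring⟩
      rintro rfl
      rw [mul_zero] at hc
      rw [hc] at hV'
      have h1 : ‖(1 : ℤ_[2])‖ = ‖-(8 * (((v / 8 : ℕ) : ℤ_[2]) + 2 ^ e * t))‖ := by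
        congr 1; linear_combination -hV'
      rw [norm_neg, norm_one, norm_mul, show (8 : ℤ_[2]) = 2 ^ 3 by norm_num, norm_pow, hn2] at h1
      have := PadicInt.norm_le_one (((v / 8 : ℕ) : ℤ_[2]) + 2 ^ e * t)
      nlinarith [norm_nonneg (((v / 8 : ℕ) : ℤ_[2]) + 2 ^ e * t)]
    · rw [if_neg h2] at h
      simp only [Bool.and_eq_true, decide_eq_true_eq, beq_iff_eq] at h
      obtain ⟨hm, hv⟩ := h
      obtain ⟨e, rfl⟩ : ∃ e, m = e + 1 := ⟨m - 1, by omega⟩
      have hvz : ((v : ℕ) : ZMod p) ^ (p / 2) = 1 := by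
        have h1 : (((v % p) ^ (p / 2) % p : ℕ) : ZMod p) = ((1 : ℕ) : ZMod p) := by rw [hv]
        rw [ZMod.natCast_mod] at h1
        push_cast at h1
        rw [ZMod.natCast_mod] at h1
        exact h1
      have hv0 : ((v : ℕ) : ZMod p) ≠ 0 := by
        intro h0
        rw [h0, zero_pow] at hvz
        · exact zero_ne_one hvz
        · have := hp.out.two_le; omega
      have hsq : IsSquare ((v : ℕ) : ZMod p) := (ZMod.euler_criterion p hv0).2 hvz
      obtain ⟨c, hc⟩ := hsq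
      have hc0 : c ≠ 0 := by rintro rfl; rw [mul_zero] at hc; exact hv0 hc
      have hVr : PadicInt.toZMod V = ((v : ℕ) : ZMod p) := by
        rw [hV, map_add, map_mul, map_pow, map_natCast, map_natCast, ZMod.natCast_self, pow_succ,
          mul_zero, zero_mul, add_zero]
      have hcu : PadicInt.toZMod ((c.val : ℕ) : ℤ_[p]) = c := by
        rw [map_natCast, ZMod.natCast_zmod_val]
      have hnc : ‖((c.val : ℕ) : ℤ_[p])‖ = 1 := by
        by_contra hne
        have hlt : ‖((c.val : ℕ) : ℤ_[p])‖ < 1 := lt_of_le_of_ne (PadicInt.norm_le_one _) hne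
        have : PadicInt.toZMod ((c.val : ℕ) : ℤ_[p]) = 0 := by
          rw [← RingHom.mem_ker, PadicInt.ker_toZMod, IsLocalRing.mem_maximalIdeal,
            PadicInt.mem_nonunits]
          exact hlt
        rw [hcu] at this
        exact hc0 this
      have hs : IsSquare V := by
        refine DP.isSquare_of_close (a := ((c.val : ℕ) : ℤ_[p])) ?_
        rw [norm_mul, DP.norm_two_odd h2, hnc, mul_one, one_pow]
        have : PadicInt.toZMod ((((c.val : ℕ) : ℤ_[p])) ^ 2 - V) = 0 := by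
          rw [map_sub, map_pow, hcu, hVr, hc]; ring
        rw [← RingHom.mem_ker, PadicInt.ker_toZMod, IsLocalRing.mem_maximalIdeal,
            PadicInt.mem_nonunits] at this
        exact this
      obtain ⟨d, hd⟩ := hs
      refine ⟨d, ?_, by rw [hd]; ring⟩
      rintro rfl
      rw [mul_zero] at hd
      rw [hd, map_zero] at hVr
      exact hv0 hVr.symm
  induction k generalizing m v V t with
  | zero => exact hunit m v V t h hV
  | succ k ih =>
    simp only [okv, Bool.or_eq_true, Bool.and_eq_true, decide_eq_true_eq, beq_iff_eq] at h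
    rcases h with h | ⟨⟨hm, hv⟩, h⟩
    · exact hunit m v V t h hV
    · obtain ⟨e, rfl⟩ : ∃ e, m = e + 2 := ⟨m - 2, by omega⟩
      rw [Nat.add_sub_cancel] at h
      obtain ⟨c, hc0, hc⟩ := ih e (v / (p * p)) h (((v / (p * p) : ℕ) : ℤ_[p]) + (p : ℤ_[p]) ^ e * t) t rfl
      refine ⟨p * c, mul_ne_zero (by exact_mod_cast hp.out.ne_zero) hc0, ?_⟩
      have hv' : (v : ℤ_[p]) = (p * p) * ((v / (p * p) : ℕ) : ℤ_[p]) := by
        have : v = p * p * (v / (p * p)) := (Nat.mul_div_cancel' (Nat.dvd_of_mod_eq_zero hv)).symm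
        exact_mod_cast congrArg (fun n : ℕ => (n : ℤ_[p])) this
      rw [hV, hv', mul_pow, ← hc]; ring

/-- congruence modulo `p ^ m`, in a form convenient here. -/
def Cg (p : ℕ) [Fact p.Prime] (m : ℕ) (A : ℤ_[p]) (a : ℕ) : Prop :=
  ∃ t : ℤ_[p], A = (a : ℤ_[p]) + (p : ℤ_[p]) ^ m * t

theorem Cg.add {m : ℕ} {A B : ℤ_[p]} {a b : ℕ} (h : Cg p m A a) (h' : Cg p m B b) :
    Cg p m (A + B) (a + b) := by
  obtain ⟨t, rfl⟩ := h
  obtain ⟨s, rfl⟩ := h'
  exact ⟨t + s, by push_cast; ring⟩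

theorem Cg.mul {m : ℕ} {A B : ℤ_[p]} {a b : ℕ} (h : Cg p m A a) (h' : Cg p m B b) :
    Cg p m (A * B) (a * b) := by
  obtain ⟨t, rfl⟩ := h
  obtain ⟨s, rfl⟩ := h'
  exact ⟨a * s + b * t + (p : ℤ_[p]) ^ m * t * s, by push_cast; ring⟩

theorem Cg.nat (m : ℕ) (a : ℕ) : Cg p m (a : ℤ_[p]) a := ⟨0, by ring⟩

theorem Cg.ofNat (m : ℕ) (a : ℕ) [a.AtLeastTwo] : Cg p m (OfNat.ofNat a : ℤ_[p]) (OfNat.ofNat a) :=
  ⟨0, by simp⟩

theorem Cg.mod {m : ℕ} {A : ℤ_[p]} {a : ℕ} (h : Cg p m A a) : Cg p m A (a % p ^ m) := by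
  obtain ⟨t, rfl⟩ := h
  refine ⟨((a / p ^ m : ℕ) : ℤ_[p]) + t, ?_⟩
  have : (a : ℤ_[p]) = ((a % p ^ m : ℕ) : ℤ_[p]) + (p : ℤ_[p]) ^ m * ((a / p ^ m : ℕ) : ℤ_[p]) := by
    have := (Nat.mod_add_div a (p ^ m)).symm
    exact_mod_cast congrArg (fun n : ℕ => (n : ℤ_[p])) this
  rw [mul_add, ← add_assoc, ← this]

theorem Cg.neg {m : ℕ} {A : ℤ_[p]} {a : ℕ} (h : Cg p m A a) :
    Cg p m (-A) ((p ^ m - a % p ^ m) % p ^ m) := by
  obtain ⟨t, ht⟩ := h.mod
  refine Cg.mod (a := p ^ m - a % p ^ m) ⟨-1 - t, ?_⟩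
  have hlt : a % p ^ m ≤ p ^ m := (Nat.mod_lt _ (pow_pos hp.out.pos m)).le
  rw [ht, Nat.cast_sub hlt]
  push_cast
  ring

theorem fN_spec {m : ℕ} {A B D : ℤ_[p]} {a b d : ℕ} (hA : Cg p m A a) (hB : Cg p m B b)
    (hD : Cg p m D d) : Cg p m (f ![A, B, D]) (fN (p ^ m) a b d) := by
  have e : f ![A, B, D] = -(3 * ((A * A + B * B + 3 * (D * D)) * (A * A + 8 * (B * B) +
      14 * (D * D)) * (A * A + 4 * (B * B) + 10 * (D * D)))) := by
    simp [f]; ring
  rw [e, fN]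
  have h3 := Cg.ofNat (p := p) m 3
  have h8 := Cg.ofNat (p := p) m 8
  have h14 := Cg.ofNat (p := p) m 14
  have h4 := Cg.ofNat (p := p) m 4
  have h10 := Cg.ofNat (p := p) m 10
  exact Cg.neg (h3.mul (((((hA.mul hA).add (hB.mul hB)).add (h3.mul (hD.mul hD))).mul
    (((hA.mul hA).add (h8.mul (hB.mul hB))).add (h14.mul (hD.mul hD)))).mul
    (((hA.mul hA).add (h4.mul (hB.mul hB))).add (h10.mul (hD.mul hD)))))

theorem fch_spec {m : ℕ} (ch : ℕ) {A B X Y : ℤ_[p]} {a b x y : ℕ} (hA : Cg p m A a)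
    (hB : Cg p m B b) (hX : Cg p m X x) (hY : Cg p m Y y) :
    Cg p m (f (chart ch A B X Y)) (fch (p ^ m) ch a b x y) := by
  have h := ((hA.mul hX).add (hB.mul hY)).mod
  match ch with
  | 0 => exact fN_spec h hX hY
  | 1 => exact fN_spec hX h hY
  | (n + 2) => exact fN_spec hX hY h

/-- the conclusion for a line. -/
def HasPt (p : ℕ) [Fact p.Prime] (ch : ℕ) (A B : ℤ_[p]) : Prop :=
  ∃ x y c : ℤ_[p], c ≠ 0 ∧ f (chart ch A B x y) = c ^ 2

theorem lineOk_sound {ch m a b : ℕ} (h : lineOk p ch m a b = true) {A B : ℤ_[p]}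
    (hA : Cg p m A a) (hB : Cg p m B b) : HasPt p ch A B := by
  simp only [lineOk, Bool.or_eq_true] at h
  rcases h with h | h
  · obtain ⟨t, -, ht⟩ := anyLt_spec h
    obtain ⟨r, hr⟩ := fch_spec ch hA hB (Cg.nat m 1) (Cg.nat m t)
    obtain ⟨c, hc, hc'⟩ := okv_sound _ _ _ ht _ r hr
    exact ⟨((1 : ℕ) : ℤ_[p]), t, c, hc, hc'⟩
  · obtain ⟨s, -, hs⟩ := anyLt_spec h
    obtain ⟨r, hr⟩ := fch_spec ch hA hB (Cg.nat m (p * s)) (Cg.nat m 1)
    obtain ⟨c, hc, hc'⟩ := okv_sound _ _ _ hs _ r hr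
    exact ⟨((p * s : ℕ) : ℤ_[p]), ((1 : ℕ) : ℤ_[p]), c, hc, hc'⟩

theorem Cg.split {m : ℕ} {A : ℤ_[p]} {a : ℕ} (h : Cg p m A a) :
    ∃ s < p, Cg p (m + 1) A (a + s * p ^ m) := by
  obtain ⟨t, rfl⟩ := h
  refine ⟨t.zmodRepr, t.zmodRepr_lt_p, ?_⟩
  have h1 := t.sub_zmodRepr_mem
  rw [PadicInt.maximalIdeal_eq_span_p, Ideal.mem_span_singleton] at h1
  obtain ⟨r, hr⟩ := h1
  refine ⟨r, ?_⟩
  have : t = (t.zmodRepr : ℤ_[p]) + p * r := by linear_combination hr
  push_cast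
  rw [pow_succ]
  linear_combination ((p : ℤ_[p]) ^ m) * this

theorem tree_sound {ch : ℕ} (k m a b : ℕ) (h : tree p ch k m a b = true) {A B : ℤ_[p]}
    (hA : Cg p m A a) (hB : Cg p m B b) : HasPt p ch A B := by
  induction k generalizing m a b with
  | zero => exact lineOk_sound h hA hB
  | succ k ih =>
    simp only [tree, Bool.or_eq_true] at h
    rcases h with h | h
    · exact lineOk_sound h hA hB
    · obtain ⟨s, hs, hA'⟩ := hA.split
      obtain ⟨t, ht, hB'⟩ := hB.split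
      exact ih _ _ _ (allLt_spec (allLt_spec h s hs) t ht) hA' hB'

theorem hasPt_of_tree {ch k : ℕ} (h : tree p ch k 0 0 0 = true) (A B : ℤ_[p]) :
    HasPt p ch A B :=
  tree_sound k 0 0 0 h ⟨A, by simp⟩ ⟨B, by simp⟩

end

end Pool.Agent.H437.MK
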